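import Pool.Agent.H31.W.ZPhi

set_option autoImplicit false
open Finset

/-! # Natural values in a zone

`EZ D p s Z`, `WZ D p s Z` : the labels of the zone `Z` in the window with the walls of the kinds `s` pushed out (world
`p`), and the other labels of the zone which are naturally open. `Nz Φ D p s Z` : **the natural value**. `nz_cmp` : it
is close to the mean in every environment which is natural off the small squares at the corners. `nz_tot` : the totals.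
`nz_s1` : left walls pushed in the world `false`, right wall pushed in the world `true`. -/

namespace Pool.Agent.H31.W

open Pool.Agent.H54.W (Win)
open Pool.Agent.H95.W (CoarseR CoarseRC)
open Pool.Agent.H72.W.N
open Pool.Agent.H14.W (SQ SL mem_SL EPn cns mem_cns CorL BX BX_four BoxF ZnC NatC NB NB_sub CrE disp_coarse ofRC)
open Pool.Agent.H42.Sp (Sd Ix kt rt)
open Pool.Agent.H33.Q1 (lt tt tv tf lt_inj tt_lt lt_odd lt_tt)
open Pool.Agent.H62.W (ET WT mem_ET mem_WT InT CAs mem_CAs odd_ET disj_ETW)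
open Pool.Agent.H74.R45 (exists_lt)
open Pool.Agent.Q1

variable {D : Win} {n H W : ℤ} {A : ℤ → ℤ} {CL : ℤ → Bool} {p : Bool} {x y : ℤ}
  {s : Finset Sd} {Z : Finset (ℤ × ℤ)}

open Classical in
/-- random labels of the zone -/
noncomputable def EZ (D : Win) (p : Bool) (s : Finset Sd) (Z : Finset (ℤ × ℤ)) : Finset (ℤ × ℤ) :=
  Z.filter fun e => EPn D s ((tt e).1 + sh p) (tt e).2

open Classical in
/-- open labels of the zone -/
noncomputable def WZ (D : Win) (p : Bool) (s : Finset Sd) (Z : Finset (ℤ × ℤ)) : Finset (ℤ × ℤ) :=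
  Z.filter fun e => ¬ EPn D s ((tt e).1 + sh p) (tt e).2 ∧ natc D p (tt e).1 (tt e).2 = true

/-- **The natural value** in the zone `Z`. -/
noncomputable def Nz (Φ : Finset (ℤ × ℤ) → ℂ) (D : Win) (p : Bool) (s : Finset Sd) (Z : Finset (ℤ × ℤ)) : ℂ :=
  Ec (fun _ => (1 / 2 : ℂ)) (EZ D p s Z) (fun ω => Φ (ω ∪ WZ D p s Z))

lemma mem_EZ : lt (x, y) ∈ EZ D p s Z ↔ lt (x, y) ∈ Z ∧ EPn D s (x + sh p) y := by
  classical
  unfold EZ
  rw [mem_filter, tt_lt]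

lemma mem_WZ : lt (x, y) ∈ WZ D p s Z ↔
    lt (x, y) ∈ Z ∧ ¬ EPn D s (x + sh p) y ∧ natc D p x y = true := by
  classical
  unfold WZ
  rw [mem_filter, tt_lt]

lemma EZ_sub : EZ D p s Z ⊆ Z := by classical exact filter_subset _ _

lemma WZ_sub : WZ D p s Z ⊆ Z := by classical exact filter_subset _ _

lemma disj_Z : Disjoint (EZ D p s Z) (WZ D p s Z) := by
  classical
  rw [disjoint_left]
  intro e he he'
  unfold EZ at he
  unfold WZ at he'
  exact (mem_filter.1 he').2.1 (mem_filter.1 he).2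

/-- **The natural value and an environment which is natural off the corners.** -/
theorem nz_cmp : ∃ C α : ℝ, 0 < C ∧ 0 < α ∧ ∀ (D : Win) (n H W : ℤ) (A : ℤ → ℤ) (CL : ℤ → Bool),
    CoarseRC D n H W A CL → ∀ M : ℤ, 400 ≤ M → 2 * M ≤ n → CrE D M →
    ∀ (Z : Finset (ℤ × ℤ)), ZnD D n H A M Z → ∀ (Φ : Finset (ℤ × ℤ) → ℂ) (K : ℝ), FunZ Z Φ K →
    ∀ (p : Bool) (s : Finset Sd) (E' W' : Finset (ℤ × ℤ)), Disjoint E' W' →
    (∀ x y, lt (x, y) ∈ Z → FarC D n H A x y → (lt (x, y) ∈ E' ↔ EPn D s (x + sh p) y) ∧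
      (lt (x, y) ∈ W' ↔ ¬ EPn D s (x + sh p) y ∧ natc D p x y = true)) →
    ‖Nz Φ D p s Z - Ec (fun _ => (1 / 2 : ℂ)) E' (fun ω => Φ (ω ∪ W'))‖ ≤
      (2 * H + 4) * (C * K * ((1 : ℝ) / M) ^ (1 + α)) := by
  obtain ⟨C, α, hC, hα, key⟩ := disp_coarse
  refine ⟨C, α, hC, hα, ?_⟩
  intro D n H W A CL hc M hM hMn hcr Z hZ Φ K hΦ p s E' W' hd hag
  unfold Nz
  rw [hΦ.res E' W']
  refine key D n H A CL (ofRC hc) M hM hMn hcr 4 le_rfl p s Z (EZ D p s Z) (WZ D p s Z)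
    (E' ∩ Z) (W' ∩ Z) hΦ.odd EZ_sub WZ_sub inter_subset_right inter_subset_right disj_Z
    (hd.mono inter_subset_left inter_subset_left) hZ ?_ ?_ Φ
    (fun c _ => hΦ.box _ NB_sub) K hΦ.K0 fun w _ => hΦ.bd w
  · intro c hcn
    constructor
    · intro x y h1 _
      rw [mem_EZ]
      refine ⟨fun h => h.2, fun h => ⟨hZ c hcn x y h1 ?_, h⟩⟩
      rw [BX_four]
      exact epn_inB h
    · intro x y h1 _ h3 h4
      rw [mem_WZ]
      exact ⟨fun h => h.2.2, fun h5 => ⟨hZ c hcn x y h1 h3, h4, h5⟩⟩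
  · intro l hl
    by_cases hlZ : l ∈ Z
    · obtain ⟨x, y, rfl⟩ := exists_lt (hΦ.odd l hlZ)
      obtain ⟨h1, h2⟩ := hag x y hlZ (farC_iff.2 hl)
      rw [mem_inter, mem_inter, mem_EZ, mem_WZ, h1, h2]
      tauto
    · have e1 : l ∉ EZ D p s Z := fun h => hlZ (EZ_sub h)
      have e2 : l ∉ WZ D p s Z := fun h => hlZ (WZ_sub h)
      simp only [mem_inter, hlZ, and_false, e1, e2, and_self]

/-- the far labels in the zone are natural -/
def ONat {D : Win} (O : OutB D) (Z : Finset (ℤ × ℤ)) : Prop :=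
  ∀ x y, lt (x, y) ∈ Z → ¬ InB D x y → (lt (x, y) ∈ O.Wo ↔ D.fill x y = true)

/-- **Totals against natural values**: the ties of the kinds in `s` are fair, everything else is natural, the frozen
tiles are arbitrary (on the right wall natural). -/
theorem nz_tot : ∃ C α : ℝ, 0 < C ∧ 0 < α ∧ ∀ (D : Win) (n H W : ℤ) (A : ℤ → ℤ) (CL : ℤ → Bool),
    CoarseRC D n H W A CL → ∀ M : ℤ, 400 ≤ M → 2 * M ≤ n → CrE D M →
    ∀ (Z : Finset (ℤ × ℤ)), ZnD D n H A M Z → ∀ (Φ : Finset (ℤ × ℤ) → ℂ) (K : ℝ), FunZ Z Φ K →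
    ∀ (O : OutB D), ONat O Z → ∀ (p : Bool) (s : Finset Sd), .R ∉ s → ∀ (S : Finset (ℤ × ℤ)),
    S ⊆ FR D p → (∀ x y, lt (x, y) ∈ Z → FRt D p x y → x + sh p = D.w → 0 ≤ y → y < D.h →
      (lt (x, y) ∈ S ↔ natc D p x y = true)) →
    ‖Nz Φ D p s Z - Ec (fun _ => (1 / 2 : ℂ)) (ET D p (Tg D p s))
      (fun ω => Φ (ω ∪ WT O p (Tg D p s) S))‖ ≤ (2 * H + 4) * (C * K * ((1 : ℝ) / M) ^ (1 + α)) := by
  obtain ⟨C, α, hC, hα, key⟩ := nz_cmp
  refine ⟨C, α, hC, hα, ?_⟩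
  intro D n H W A CL hc M hM hMn hcr Z hZ Φ K hΦ O hO p s hs S hS hSR
  refine key D n H W A CL hc M hM hMn hcr Z hZ Φ K hΦ p s _ _
    (disj_ETW (fun k hk => (mem_Tg.1 hk).1) hS) ?_
  intro x y hlZ hf
  rw [et_iff hc (by omega) hs hf, mem_EPs,
    wt_iff hc (by omega) hs hf hS (fun h1 h2 h3 h4 => hSR x y hlZ h1 h2 h3 h4), mem_WPs]
  refine ⟨Iff.rfl, ?_⟩
  by_cases hB : InB D x y
  · have hO' : lt (x, y) ∉ O.Wo := fun h => O.far x y h hB
    tauto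
  · have h1 := hO x y hlZ hB
    have h2 : ¬ EPn D s (x + sh p) y := fun h => hB (epn_inB h)
    rw [h1]
    unfold natc
    tauto

/-- **Left walls pushed in the world `false`, right wall pushed in the world `true`.** -/
theorem nz_s1 : ∃ C α : ℝ, 0 < C ∧ 0 < α ∧ ∀ (D : Win) (n H W : ℤ) (A : ℤ → ℤ) (CL : ℤ → Bool),
    CoarseRC D n H W A CL → ∀ M : ℤ, 400 ≤ M → 2 * M ≤ n → CrE D M →
    ∀ (Z : Finset (ℤ × ℤ)), ZnD D n H A M Z → ∀ (Φ : Finset (ℤ × ℤ) → ℂ) (K : ℝ), FunZ Z Φ K →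
    ‖Nz Φ D false {Sd.L} Z - Nz Φ D true {Sd.R} Z‖ ≤
      (2 * H + 4) * (C * K * ((1 : ℝ) / M) ^ (1 + α)) := by
  obtain ⟨C, α, hC, hα, key⟩ := nz_cmp
  refine ⟨C, α, hC, hα, ?_⟩
  intro D n H W A CL hc M hM hMn hcr Z hZ Φ K hΦ
  have := key D n H W A CL hc M hM hMn hcr Z hZ Φ K hΦ false {Sd.L} (EZ D true {Sd.R} Z)
    (WZ D true {Sd.R} Z) disj_Z ?_
  · exact this
  · intro x y hl hf
    have e := epn_s1 hc (by omega) hf
    rw [mem_EZ, mem_WZ, e]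
    exact ⟨⟨fun h => h.2, fun h => ⟨hl, h⟩⟩, ⟨fun h => h.2, fun h => ⟨hl, h⟩⟩⟩

end Pool.Agent.H31.W
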