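import Pool.Agent.H31.W.NatZ
import Pool.Agent.H95.W.PosK

set_option autoImplicit false
open Filter Topology Set

/-! # Natural values, uniform on compact sets

`Df C n he h8 c0 r` : the window of the coarse data `C` with the colour of the right wall flipped at the row `r`.
`pk` : for `v / n` in a compact subset of the room and a string which starts at distance at most one from `v`, all
natural values of bounded functionals of the zone are close to the means in environments which are natural off the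
corners, with the bound `L n ^ (-(1 + α))`. -/

namespace Pool.Agent.H31.W

open Pool.Agent.Q1.M4 (lat)
open Pool.Agent.H54.W (Win CD)
open Pool.Agent.H95.W (CoarseR CoarseRC dp_K)
open Pool.Agent.H72.W.N
open Pool.Agent.H14.W (EPn CrE)
open Pool.Agent.H42.Sp (Sd)
open Pool.Agent.H33.Q1 (lt tt)
open Pool.Agent.H62.W (ZS)
open Pool.Agent.H20.W (OmC crz)
open Pool.Agent.Q1

/-- the window with the colour of the right wall flipped at the row `r` -/
noncomputable abbrev Df (C : CD) (n : ℤ) (he : n % 2 = 0) (h8 : 8 ≤ n) (c0 : Bool) (r : ℤ) : Win :=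
  C.win n he h8 (crz c0 r)

/-- the colour of the right wall is constant near its ends -/
lemma crE_Df {C : CD} {n : ℤ} {he : n % 2 = 0} {h8 : 8 ≤ n} {c0 : Bool} {x0 r M : ℤ} (hM : 0 ≤ M)
    (h : DeepZ (Df C n he h8 c0 r) M x0 r) : CrE (Df C n he h8 c0 r) M := by
  have r1 := h x0 (r - (M + 2)) (by omega) (by omega) (by omega) (by omega)
  have r2 := h x0 (r + (M + 2)) (by omega) (by omega) (by omega) (by omega)
  unfold PT at r1 r2
  constructor
  · intro y h1 h2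
    show crz c0 r y = crz c0 r 0
    unfold crz
    rw [if_pos (by omega), if_pos (by omega)]
  · intro y h1 h2
    show crz c0 r y = crz c0 r _
    unfold crz
    rw [if_neg (by omega), if_neg (by omega)]

/-- **Uniform form** -/
theorem pk (C : CD) {K : Set ℂ} (hK : K ⊆ OmC C) (hKc : IsCompact K) {κ : ℝ} (hκ : 0 ≤ κ) :
    ∃ L α : ℝ, 0 < α ∧ ∃ n0 : ℕ, ∀ n : ℤ, (n0 : ℤ) ≤ n → ∀ v : ℤ × ℤ, lat v / ((n : ℝ) : ℂ) ∈ K →
    ∀ (he : n % 2 = 0) (h8 : 8 ≤ n) (c0 : Bool) (x0 r : ℤ), |x0 - v.1| ≤ 1 → |r - v.2| ≤ 1 →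
    ∀ (X1 X2 Y1 Y2 : ℤ), BoxD (Df C n he h8 c0 r) X1 X2 Y1 Y2 →
    ∀ Φ : Finset (ℤ × ℤ) → ℂ, FunZ (ZS X1 X2 Y1 Y2 x0 r) Φ κ →
    ∀ (p : Bool) (s : Finset Sd) (E' W' : Finset (ℤ × ℤ)), Disjoint E' W' →
    (∀ x y, lt (x, y) ∈ ZS X1 X2 Y1 Y2 x0 r → FarC (Df C n he h8 c0 r) n C.H C.A x y →
      (lt (x, y) ∈ E' ↔ EPn (Df C n he h8 c0 r) s (x + sh p) y) ∧
      (lt (x, y) ∈ W' ↔ ¬ EPn (Df C n he h8 c0 r) s (x + sh p) y ∧
        natc (Df C n he h8 c0 r) p x y = true)) →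
    ‖Nz Φ (Df C n he h8 c0 r) p s (ZS X1 X2 Y1 Y2 x0 r) -
      Ec (fun _ => (1 / 2 : ℂ)) E' (fun ω => Φ (ω ∪ W'))‖ ≤ L * (n : ℝ) ^ (-(1 + α)) := by
  obtain ⟨δ, hδ, n1, hdp⟩ := dp_K C hK hKc
  obtain ⟨C0, α, hC0, hα, key⟩ := nz_cmp
  set δ1 : ℝ := min δ 1 / 4 with hδ1
  have hδ1p : 0 < δ1 := by rw [hδ1]; positivity
  have hδ1a : δ1 ≤ δ / 4 := by rw [hδ1]; linarith [min_le_left δ 1]
  have hδ1b : δ1 ≤ 1 / 4 := by rw [hδ1]; linarith [min_le_right δ 1]
  obtain ⟨n2, hn2⟩ := exists_nat_gt (1000 / δ1)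
  refine ⟨(2 * C.H + 4) * (C0 * κ * (2 / δ1) ^ (1 + α)), α, hα, max n1 n2, ?_⟩
  intro n hn v hv he h8 c0 x0 r hx hr X1 X2 Y1 Y2 hB Φ hΦ p s E' W' hd hag
  have hn1 : (n1 : ℤ) ≤ n := le_trans (by exact_mod_cast le_max_left _ _) hn
  have hn2' : (n2 : ℤ) ≤ n := le_trans (by exact_mod_cast le_max_right _ _) hn
  have hnr : 1000 / δ1 < (n : ℝ) := by
    have : ((n2 : ℤ) : ℝ) ≤ n := by exact_mod_cast hn2'
    have e : ((n2 : ℤ) : ℝ) = (n2 : ℝ) := by simp
    linarith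
  have hbig : 1000 < δ1 * n := by
    rw [div_lt_iff₀ hδ1p] at hnr; linarith
  have hnp : (0 : ℝ) < n := by
    by_contra hc
    have : δ1 * (n : ℝ) ≤ 0 := mul_nonpos_of_nonneg_of_nonpos hδ1p.le (not_lt.1 hc)
    linarith
  set M : ℤ := ⌊δ1 * n⌋ with hM
  have hM1 : (M : ℝ) ≤ δ1 * n := Int.floor_le _
  have hM2 : δ1 * n < M + 1 := Int.lt_floor_add_one _
  have hM3 : 400 ≤ M := by
    have : (999 : ℝ) < M := by linarith
    have : (999 : ℤ) < M := by exact_mod_cast this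
    omega
  have hM4 : 2 * M ≤ n := by
    have : ((2 * M : ℤ) : ℝ) ≤ n := by push_cast; nlinarith
    exact_mod_cast this
  obtain ⟨hn0, hdp⟩ := hdp n hn1
  have hD := hdp v hv he h8 (crz c0 r) false (M + 3) (by
    push_cast
    have : δ1 * (n : ℝ) ≤ δ / 4 * n := mul_le_mul_of_nonneg_right hδ1a hnp.le
    nlinarith)
  rw [abs_le] at hx hr
  have hdeep : DeepZ (Df C n he h8 c0 r) M x0 r := by
    intro x y g1 g2 g3 g4
    have := hD x y (by omega) (by omega) (by omega) (by omega)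
    rw [inP_iff, sh_false, add_zero] at this
    exact this
  have hc := Pool.Agent.H54.W.CD.coarseC (C := C) he h8 (crz c0 r)
  have h1 := key (Df C n he h8 c0 r) n C.H C.W C.A C.CL hc M hM3 hM4 (crE_Df (by omega) hdeep)
    (ZS X1 X2 Y1 Y2 x0 r) (znD_ZS hc (by omega) hB hdeep) Φ κ hΦ p s E' W' hd hag
  refine h1.trans ?_
  have hMp : (0 : ℝ) < M := by
    have : (400 : ℝ) ≤ M := by exact_mod_cast hM3
    linarith
  have hMl : δ1 / 2 * n ≤ M := by linarith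
  have e1 : ((1 : ℝ) / M) ^ (1 + α) ≤ (2 / δ1) ^ (1 + α) * (n : ℝ) ^ (-(1 + α)) := by
    rw [Real.rpow_neg hnp.le, ← Real.inv_rpow hnp.le, ← Real.mul_rpow (by positivity) (by positivity)]
    refine Real.rpow_le_rpow (by positivity) ?_ (by linarith)
    rw [← div_eq_mul_inv, div_div, div_le_div_iff₀ hMp (by positivity)]
    linarith
  have hH : (0 : ℝ) ≤ 2 * (C.H : ℝ) + 4 := by
    have : (0 : ℝ) < C.H := by exact_mod_cast C.H0
    linarith
  calc (2 * (C.H : ℝ) + 4) * (C0 * κ * ((1 : ℝ) / M) ^ (1 + α))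
      ≤ (2 * C.H + 4) * (C0 * κ * ((2 / δ1) ^ (1 + α) * (n : ℝ) ^ (-(1 + α)))) := by
        refine mul_le_mul_of_nonneg_left ?_ hH
        exact mul_le_mul_of_nonneg_left e1 (by positivity)
    _ = _ := by ring

end Pool.Agent.H31.W
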