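import Mathlib
import Pool.Agent.H31.W.Pk
import Pool.Agent.H33.W.NFz
import Pool.Agent.H27.W.NatG

set_option autoImplicit false

/-! # Natural windows and canonical shapes

`Agr` : the region and the colours of the canonical environment of the shape `T` agree with the natural window off
the corners. `agr_0`, `agr_mv`, `agr_fo`, `agr_ri`, `agr_le` : the shapes of helper33. -/

namespace Pool.Agent.H31.W

open Pool.Agent.H54.W (Win CD NE)
open Pool.Agent.H72.W.N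
open Pool.Agent.H14.W (EPn CrE SQ BX cns mem_cns CorL dx dy)
open Pool.Agent.H42.Sp (Sd)
open Pool.Agent.H21.W (RP fillC)
open Pool.Agent.H20.W (crz)
open Pool.Agent.H33.W (Shp shC cF fS fS_fillC cF_0 cF_mv cF_fo cF_ri cF_le jump rp_iff reg_shC)
open Pool.Agent.H27.W.G (epn_rp0 epn_rp natc_fill)

/-- the shape `T` is the natural window of the world `p` with the walls of the kinds `s` pushed, off the corners -/
def Agr (C : CD) (n : ℤ) (he : n % 2 = 0) (h8 : 8 ≤ n) (c0 : Bool) (r : ℤ) (p : Bool) (s : Finset Sd)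
    (T : Shp) : Prop :=
  ∀ x y, FarC (Df C n he h8 c0 r) n C.H C.A x y →
    (EPn (Df C n he h8 c0 r) s (x + sh p) y ↔ T.a y ≤ x ∧ x < T.B) ∧
    (¬ (T.a y ≤ x ∧ x < T.B) → natc (Df C n he h8 c0 r) p x y = cF (shC C n c0 r) T x y)

variable {C : CD} {n : ℤ} {he : n % 2 = 0} {h8 : 8 ≤ n} {c0 : Bool} {r x y : ℤ} {p : Bool}

/-- natural colours -/
lemma nat_fS (h : FarC (Df C n he h8 c0 r) n C.H C.A x y) :
    natc (Df C n he h8 c0 r) p x y = fS (shC C n c0 r) x y := by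
  rw [natc_fill (he := he) (h8 := h8) h, fS_fillC (cr := crz c0 r) fun y _ _ => rfl]

theorem agr_0 : Agr C n he h8 c0 r false ∅ (shC C n c0 r) := by
  intro x y h
  refine ⟨?_, fun _ => ?_⟩
  · rw [epn_rp0 (he := he) (h8 := h8) h, sh_false, add_zero, rp_iff (c0 := c0) (r := r)]
  · rw [nat_fS h, cF_0]

theorem agr_mv (h0 : 4 ≤ r) (h1 : r + 4 ≤ n * C.H) : Agr C n he h8 c0 r true ∅ ((shC C n c0 r).mv (-1)) := by
  intro x y h
  refine ⟨?_, fun hI => ?_⟩
  · rw [epn_rp0 (he := he) (h8 := h8) h, sh_true, rp_iff (c0 := c0) (r := r)]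
    change _ ↔ (shC C n c0 r).a y + -1 ≤ x ∧ x < (shC C n c0 r).B + -1
    omega
  · rw [nat_fS h, cF_mv h8 h0 h1 hI]

/-- the left end of a row which is not empty -/
lemma a_lt (h8 : 8 ≤ n) :
    (shC C n c0 r).a y < (shC C n c0 r).B ↔ 0 ≤ y ∧ y < n * C.H := by
  by_cases h : 0 ≤ y ∧ y < n * C.H
  · refine iff_of_true ?_ h
    rw [Pool.Agent.H33.W.aC_in h.1 h.2]
    exact (Pool.Agent.H27.W.G.a_bd (C := C) (by omega) h.1 h.2).2.trans_lt' (by omega)
  · refine iff_of_false ?_ h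
    rw [Pool.Agent.H33.W.aC_out h]
    exact lt_irrefl _

theorem agr_fo (h0 : 4 ≤ r) (h1 : r + 4 ≤ n * C.H) : Agr C n he h8 c0 r false {Sd.L} (shC C n c0 r).fo := by
  intro x y h
  refine ⟨?_, fun hI => ?_⟩
  · rw [epn_rp (he := he) (h8 := h8) h, sh_false, add_zero, rp_iff (c0 := c0) (r := r),
      rp_iff (c0 := c0) (r := r)]
    change (_ ∨ _ ≤ x - -1 ∧ x - -1 < _) ↔ (if (shC C n c0 r).a y < (shC C n c0 r).B then
      (shC C n c0 r).a y - 1 else (shC C n c0 r).a y) ≤ x ∧ x < (shC C n c0 r).B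
    change (_ ∨ (shC C n c0 r).a (y - 0) ≤ x - -1 ∧ x - -1 < _) ↔ _
    rw [sub_zero]
    split_ifs <;> omega
  · rw [nat_fS h, cF_fo h8 h0 h1 hI]

/-- a jump is at a corner -/
lemma jump_cns (h8 : 8 ≤ n) (h : (shC C n c0 r).a (y - 1) ≠ (shC C n c0 r).a y) {X : ℤ}
    (hX : X = (shC C n c0 r).a (y - 1) ∨ X = (shC C n c0 r).a y) :
    (X, y) ∈ cns (Df C n he h8 c0 r) n C.H C.A := by
  obtain ⟨Y, h0, h1, rfl, e1, e2⟩ := jump h8 h
  have hn : (0 : ℤ) < n := by omega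
  rw [e1, e2] at h
  rw [e1, e2] at hX
  rw [mem_cns]
  have hne : 0 < Y → Y < C.H → C.A (Y - 1) ≠ C.A Y := by
    intro k1 k2 k3
    rw [if_pos k1, if_pos k2, k3] at h
    exact h rfl
  have hb : Y = 0 → (n * C.W, n * Y) = ((Df C n he h8 c0 r).w, (0 : ℤ)) := by
    rintro rfl
    rw [mul_zero]
    rfl
  have ht : Y = C.H → (n * C.W, n * Y) = ((Df C n he h8 c0 r).w, (Df C n he h8 c0 r).h) := by
    rintro rfl
    rfl
  rcases hX with rfl | rfl
  · by_cases k : 0 < Y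
    · rw [if_pos k]
      exact Or.inr (Or.inr ⟨_, _, ⟨h0, h1, Or.inr ⟨rfl, k⟩, hne⟩, rfl⟩)
    · rw [if_neg k]
      exact Or.inl (hb (by omega))
  · by_cases k : Y < C.H
    · rw [if_pos k]
      exact Or.inr (Or.inr ⟨_, _, ⟨h0, h1, Or.inl ⟨rfl, k⟩, hne⟩, rfl⟩)
    · rw [if_neg k]
      exact Or.inr (Or.inl (ht (by omega)))

/-- tiles next to a jump are not far -/
lemma not_far (h8 : 8 ≤ n) (h : (shC C n c0 r).a (y - 1) ≠ (shC C n c0 r).a y) {X x' y' : ℤ}
    (hX : X = (shC C n c0 r).a (y - 1) ∨ X = (shC C n c0 r).a y) (h1 : X - 2 ≤ x') (h2 : x' ≤ X + 1)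
    (h3 : y - 1 ≤ y') (h4 : y' ≤ y) (hf : FarC (Df C n he h8 c0 r) n C.H C.A x' y') : False := by
  have hc := jump_cns (he := he) h8 h hX
  have hb := Pool.Agent.H27.W.G.cns_bd (he := he) (h8 := h8) (cr := crz c0 r) (by omega) hc
  simp only at hb
  refine hf _ hc ⟨by simp only; omega, ?_⟩
  unfold BX
  rw [CD.win_lo, CD.win_w, CD.win_h]
  omega

theorem agr_ri (h0 : 4 ≤ r) (h1 : r + 4 ≤ n * C.H) : Agr C n he h8 c0 r false {Sd.F} (shC C n c0 r).ri := by
  have R := reg_shC (C := C) (c0 := c0) h8 h0 h1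
  intro x y h
  refine ⟨?_, fun hI => ?_⟩
  · rw [epn_rp (he := he) (h8 := h8) h, sh_false, add_zero, rp_iff (c0 := c0) (r := r),
      rp_iff (c0 := c0) (r := r)]
    change (_ ∨ (shC C n c0 r).a (y - -1) ≤ x - 0 ∧ x - 0 < _) ↔
      min ((shC C n c0 r).a y) ((shC C n c0 r).a (y + 1)) ≤ x ∧ x < (shC C n c0 r).B
    rw [sub_neg_eq_add]
    omega
  · rw [nat_fS h]
    rcases cF_ri R.aB hI with e | ⟨e1, e2, e3⟩ | ⟨e1, e2, e3, e4⟩
    · exact e.symm
    · exact (not_far (y := y + 1) h8 (by rw [add_sub_cancel_right]; omega) (Or.inr rfl) e2 (by omega) (by omega)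
        (by omega) h).elim
    · exact (not_far (y := y + 1) (X := (shC C n c0 r).a y) h8 (by rw [add_sub_cancel_right]; omega)
        (Or.inl (by rw [add_sub_cancel_right])) (by omega) (by omega) (by omega) (by omega) h).elim

theorem agr_le (h0 : 4 ≤ r) (h1 : r + 4 ≤ n * C.H) : Agr C n he h8 c0 r false {Sd.C} (shC C n c0 r).le := by
  have R := reg_shC (C := C) (c0 := c0) h8 h0 h1
  intro x y h
  refine ⟨?_, fun hI => ?_⟩
  · rw [epn_rp (he := he) (h8 := h8) h, sh_false, add_zero, rp_iff (c0 := c0) (r := r),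
      rp_iff (c0 := c0) (r := r)]
    change (_ ∨ (shC C n c0 r).a (y - 1) ≤ x - 0 ∧ x - 0 < _) ↔
      min ((shC C n c0 r).a y) ((shC C n c0 r).a (y - 1)) ≤ x ∧ x < (shC C n c0 r).B
    omega
  · rw [nat_fS h]
    rcases cF_le R.aB hI with e | ⟨e1, e2, e3⟩ | ⟨e1, e2, e3, e4⟩
    · exact e.symm
    · exact (not_far (y := y) h8 (by omega) (Or.inl rfl) e2 (by omega) (by omega) (by omega) h).elim
    · exact (not_far (y := y) h8 (by omega) (Or.inr rfl) (by omega) (by omega) (by omega) (by omega) h).elim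

end Pool.Agent.H31.W
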