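import Mathlib
import Pool.Agent.H31.W.Agr
import Pool.Agent.H95.W.SeqA

set_option autoImplicit false
open Filter Topology Set

/-! # The relations between the natural values, pointwise

`nfK` : natural value = canonical value up to `L n ^ (-(1 + α))`, uniformly on compact sets.
`ppK` : the world `true` at `v - (1, 0)` and the world `false` of the negated colours at `v`. `s2K` : floors pushed at
`v - (0, 1)` and ceilings pushed, negated colours, at `v`. -/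

namespace Pool.Agent.H31.W

open Pool.Agent.Q1.M4 (lat)
open Pool.Agent.H54.W (Win CD NE)
open Pool.Agent.H95.W (CoarseR CoarseRC dp_K gd_K)
open Pool.Agent.H21.W (RP)
open Pool.Agent.H72.W.N
open Pool.Agent.H14.W (EPn CrE)
open Pool.Agent.H42.Sp (Sd)
open Pool.Agent.H33.Q1 (lt tt)
open Pool.Agent.H62.W (ZS Phi mem_ZS)
open Pool.Agent.H20.W (OmC crz)
open Pool.Agent.H33.W (Shp shC Ef Wf NF MB Only negC mem_Ef mem_Wf disj_EW nf_pp nf_s2 cF)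
open Pool.Agent.Q1

/-- the margin of the box -/
lemma mb_of {C : CD} {n : ℤ} {he : n % 2 = 0} {h8 : 8 ≤ n} {c0 : Bool} {r X1 X2 Y1 Y2 : ℤ}
    (h : BoxD (Df C n he h8 c0 r) X1 X2 Y1 Y2) : MB C n X1 X2 Y1 Y2 := by
  obtain ⟨h1, h2, h3, h4⟩ := h
  rw [Pool.Agent.H54.W.CD.win_lo] at h1
  rw [Pool.Agent.H54.W.CD.win_w] at h2
  rw [Pool.Agent.H54.W.CD.win_h] at h4
  exact ⟨by omega, by omega, by omega, by omega⟩

/-- **Natural value = canonical value**, uniform form -/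
theorem nfK (C : CD) {K : Set ℂ} (hK : K ⊆ OmC C) (hKc : IsCompact K) :
    ∃ L α : ℝ, 0 < α ∧ ∃ n0 : ℕ, ∀ n : ℤ, (n0 : ℤ) ≤ n → ∀ v : ℤ × ℤ, lat v / ((n : ℝ) : ℂ) ∈ K →
    ∀ (he : n % 2 = 0) (h8 : 8 ≤ n) (c0 : Bool) (x0 r : ℤ), |x0 - v.1| ≤ 1 → |r - v.2| ≤ 1 →
    ∀ (X1 X2 Y1 Y2 : ℤ), BoxD (Df C n he h8 c0 r) X1 X2 Y1 Y2 →
    ∀ Ψ : (NE → NE → Prop) → ℂ, (∀ a, ‖Ψ a‖ ≤ 1) →
    ∀ (p : Bool) (s : Finset Sd) (T : Shp), Agr C n he h8 c0 r p s T →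
    ‖Nz (Phi C n c0 x0 r X1 X2 Y1 Y2 Ψ) (Df C n he h8 c0 r) p s (ZS X1 X2 Y1 Y2 x0 r) -
      NF C n c0 T x0 r X1 X2 Y1 Y2 Ψ‖ ≤ L * (n : ℝ) ^ (-(1 + α)) := by
  obtain ⟨L, α, hα, n0, h⟩ := pk C hK hKc zero_le_one
  refine ⟨L, α, hα, n0, ?_⟩
  intro n hn v hv he h8 c0 x0 r hx hr X1 X2 Y1 Y2 hB Ψ hΨ p s T hT
  refine h n hn v hv he h8 c0 x0 r hx hr X1 X2 Y1 Y2 hB _ (funZ_Phi C n c0 zero_le_one hΨ) p s _ _ disj_EW ?_
  intro x y hz hf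
  have hb := (mem_ZS.1 hz).1
  obtain ⟨h1, h2⟩ := hT x y hf
  rw [mem_Ef, mem_Wf, h1]
  refine ⟨⟨fun h => h.2, fun h => ⟨hb, h⟩⟩, ⟨fun h => ?_, fun h => ?_⟩⟩
  · exact ⟨h.2.1, by rw [h2 h.2.1]; exact h.2.2⟩
  · exact ⟨hb, h.1, by rw [← h2 h.1]; exact h.2⟩

/-- the positions over a compact set are deep inside of the room -/
lemma geoK (C : CD) {K : Set ℂ} (hK : K ⊆ OmC C) (hKc : IsCompact K) : ∃ n0 : ℕ, ∀ n : ℤ, (n0 : ℤ) ≤ n →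
    ∀ v : ℤ × ℤ, lat v / ((n : ℝ) : ℂ) ∈ K → n % 2 = 0 → 8 ≤ n → ∀ x r : ℤ, |x - v.1| ≤ 2 → |r - v.2| ≤ 2 →
    RP C n x r ∧ 6 ≤ r ∧ r + 6 ≤ n * C.H := by
  obtain ⟨δ, hδ, n1, h⟩ := gd_K C false hK hKc
  refine ⟨n1, fun n hn v hv he h8 x r hx hr => ?_⟩
  obtain ⟨g, -⟩ := h n hn he h8 v hv
  have m4 := g.m4
  have r1 := g.rlo
  have r2 := g.rhi
  rw [abs_le] at hx hr
  have k := g.deepZ (x - 1) r (by omega) (by omega) (by omega) (by omega)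
  unfold PT at k
  obtain ⟨k1, k2, k3, k4⟩ := k
  rw [Pool.Agent.H54.W.CD.win_a] at k3
  rw [Pool.Agent.H54.W.CD.win_h] at k2
  rw [Pool.Agent.H54.W.CD.win_w] at k4
  refine ⟨⟨k1, k2, ?_, ?_⟩, by omega, by omega⟩
  · rcases C.wa_cases n r with ⟨-, e⟩ | ⟨-, e⟩ <;> rw [e] at k3 <;> omega
  · have k' := g.deepZ x r (by omega) (by omega) (by omega) (by omega)
    exact k'.2.2.2

/-- triangle inequality for three distances -/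
lemma tri3 {a b c d : ℂ} {x y : ℝ} (h1 : ‖a - b‖ ≤ x) (h2 : b = c) (h3 : ‖d - c‖ ≤ y) : ‖a - d‖ ≤ x + y := by
  have e : a - d = (a - b) - (d - c) := by rw [h2]; ring
  rw [e]
  exact (norm_sub_le _ _).trans (add_le_add h1 h3)

/-- two bounds with different exponents -/
lemma two_pow {L1 L2 a1 a2 n : ℝ} (hn : 1 ≤ n) : L1 * n ^ (-(1 + a1)) + L2 * n ^ (-(1 + a2)) ≤
    (|L1| + |L2|) * n ^ (-(1 + min a1 a2)) := by
  have h1 : n ^ (-(1 + a1)) ≤ n ^ (-(1 + min a1 a2)) :=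
    Real.rpow_le_rpow_of_exponent_le hn (by linarith [min_le_left a1 a2])
  have h2 : n ^ (-(1 + a2)) ≤ n ^ (-(1 + min a1 a2)) :=
    Real.rpow_le_rpow_of_exponent_le hn (by linarith [min_le_right a1 a2])
  have p1 : 0 ≤ n ^ (-(1 + a1)) := by positivity
  have p2 : 0 ≤ n ^ (-(1 + a2)) := by positivity
  have q1 : L1 * n ^ (-(1 + a1)) ≤ |L1| * n ^ (-(1 + min a1 a2)) :=
    (mul_le_mul_of_nonneg_right (le_abs_self L1) p1).trans (mul_le_mul_of_nonneg_left h1 (abs_nonneg _))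
  have q2 : L2 * n ^ (-(1 + a2)) ≤ |L2| * n ^ (-(1 + min a1 a2)) :=
    (mul_le_mul_of_nonneg_right (le_abs_self L2) p2).trans (mul_le_mul_of_nonneg_left h2 (abs_nonneg _))
  rw [add_mul]
  exact add_le_add q1 q2

/-- **World `true`**: the natural value of the world `true` at `v - (1, 0)` and the natural value of the world `false`
of the negated colours at `v`. -/
theorem ppK (C : CD) {K : Set ℂ} (hK : K ⊆ OmC C) (hKc : IsCompact K) :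
    ∃ L α : ℝ, 0 < α ∧ ∃ n0 : ℕ, ∀ n : ℤ, (n0 : ℤ) ≤ n → ∀ v : ℤ × ℤ, lat v / ((n : ℝ) : ℂ) ∈ K →
    ∀ (he : n % 2 = 0) (h8 : 8 ≤ n) (c0 : Bool) (X1 X2 Y1 Y2 X1' X2' Y1' Y2' : ℤ),
    BoxD (Df C n he h8 c0 v.2) X1 X2 Y1 Y2 → BoxD (Df C n he h8 c0 v.2) X1' X2' Y1' Y2' →
    ∀ Ψ : (NE → NE → Prop) → ℂ, (∀ a, ‖Ψ a‖ ≤ 1) → Only C c0 Ψ →
    ‖Nz (Phi C n c0 (v.1 - 1) v.2 X1 X2 Y1 Y2 Ψ) (Df C n he h8 c0 v.2) true ∅ (ZS X1 X2 Y1 Y2 (v.1 - 1) v.2) -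
      Nz (Phi (negC C) n (!c0) v.1 v.2 X1' X2' Y1' Y2' Ψ) (Df (negC C) n he h8 (!c0) v.2) false ∅
        (ZS X1' X2' Y1' Y2' v.1 v.2)‖ ≤ L * (n : ℝ) ^ (-(1 + α)) := by
  obtain ⟨L1, α1, hα1, n1, h1⟩ := nfK C hK hKc
  obtain ⟨L2, α2, hα2, n2, h2⟩ := nfK (negC C) (K := K) hK hKc
  obtain ⟨n3, h3⟩ := geoK C hK hKc
  refine ⟨|L1| + |L2|, min α1 α2, lt_min hα1 hα2, max n1 (max n2 n3), ?_⟩
  intro n hn v hv he h8 c0 X1 X2 Y1 Y2 X1' X2' Y1' Y2' hB hB' Ψ hΨ hO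
  have k1 : (n1 : ℤ) ≤ n := le_trans (by exact_mod_cast le_max_left _ _) hn
  have k2 : (n2 : ℤ) ≤ n := le_trans (by exact_mod_cast (le_max_left _ _).trans (le_max_right _ _)) hn
  have k3 : (n3 : ℤ) ≤ n := le_trans (by exact_mod_cast (le_max_right _ _).trans (le_max_right _ _)) hn
  obtain ⟨g1, g2, g3⟩ := h3 n k3 v hv he h8 v.1 v.2 (by simp) (by simp)
  have hnr : (1 : ℝ) ≤ n := by
    have : (8 : ℝ) ≤ n := by exact_mod_cast h8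
    linarith
  refine le_trans ?_ (two_pow hnr)
  refine tri3 (h1 n k1 v hv he h8 c0 (v.1 - 1) v.2 (by rw [abs_le]; omega) (by simp) X1 X2 Y1 Y2 hB Ψ hΨ true ∅
    ((shC C n c0 v.2).mv (-1)) (agr_mv (by omega) (by omega))) ?_
    (h2 n k2 v hv he h8 (!c0) v.1 v.2 (by simp) (by simp) X1' X2' Y1' Y2' hB' Ψ hΨ false ∅
    (shC (negC C) n (!c0) v.2) (agr_0 (C := negC C)))
  exact nf_pp h8 (by omega) (by omega) g1 (mb_of hB) (mb_of hB') hO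

/-- **Floors and ceilings**: the natural value with the floors pushed at `v - (0, 1)` and the natural value of the
negated colours with the ceilings pushed at `v`. -/
theorem s2K (C : CD) {K : Set ℂ} (hK : K ⊆ OmC C) (hKc : IsCompact K) :
    ∃ L α : ℝ, 0 < α ∧ ∃ n0 : ℕ, ∀ n : ℤ, (n0 : ℤ) ≤ n → ∀ v : ℤ × ℤ, lat v / ((n : ℝ) : ℂ) ∈ K →
    ∀ (he : n % 2 = 0) (h8 : 8 ≤ n) (c0 : Bool) (X1 X2 Y1 Y2 X1' X2' Y1' Y2' : ℤ),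
    BoxD (Df C n he h8 c0 v.2) X1 X2 Y1 Y2 → BoxD (Df C n he h8 c0 v.2) X1' X2' Y1' Y2' →
    ∀ Ψ : (NE → NE → Prop) → ℂ, (∀ a, ‖Ψ a‖ ≤ 1) → Only C c0 Ψ →
    ‖Nz (Phi C n c0 v.1 (v.2 - 1) X1 X2 Y1 Y2 Ψ) (Df C n he h8 c0 (v.2 - 1)) false {Sd.F}
        (ZS X1 X2 Y1 Y2 v.1 (v.2 - 1)) -
      Nz (Phi (negC C) n (!c0) v.1 v.2 X1' X2' Y1' Y2' Ψ) (Df (negC C) n he h8 (!c0) v.2) false {Sd.C}
        (ZS X1' X2' Y1' Y2' v.1 v.2)‖ ≤ L * (n : ℝ) ^ (-(1 + α)) := by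
  obtain ⟨L1, α1, hα1, n1, h1⟩ := nfK C hK hKc
  obtain ⟨L2, α2, hα2, n2, h2⟩ := nfK (negC C) (K := K) hK hKc
  obtain ⟨n3, h3⟩ := geoK C hK hKc
  refine ⟨|L1| + |L2|, min α1 α2, lt_min hα1 hα2, max n1 (max n2 n3), ?_⟩
  intro n hn v hv he h8 c0 X1 X2 Y1 Y2 X1' X2' Y1' Y2' hB hB' Ψ hΨ hO
  have k1 : (n1 : ℤ) ≤ n := le_trans (by exact_mod_cast le_max_left _ _) hn
  have k2 : (n2 : ℤ) ≤ n := le_trans (by exact_mod_cast (le_max_left _ _).trans (le_max_right _ _)) hn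
  have k3 : (n3 : ℤ) ≤ n := le_trans (by exact_mod_cast (le_max_right _ _).trans (le_max_right _ _)) hn
  obtain ⟨g1, g2, g3⟩ := h3 n k3 v hv he h8 v.1 v.2 (by simp) (by simp)
  obtain ⟨g1', -, -⟩ := h3 n k3 v hv he h8 v.1 (v.2 - 1) (by simp) (by rw [abs_le]; omega)
  have hnr : (1 : ℝ) ≤ n := by
    have : (8 : ℝ) ≤ n := by exact_mod_cast h8
    linarith
  refine le_trans ?_ (two_pow hnr)
  refine tri3 (h1 n k1 v hv he h8 c0 v.1 (v.2 - 1) (by simp) (by rw [abs_le]; omega) X1 X2 Y1 Y2 hB Ψ hΨ false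
    {Sd.F} (shC C n c0 (v.2 - 1)).ri (agr_ri (by omega) (by omega))) ?_
    (h2 n k2 v hv he h8 (!c0) v.1 v.2 (by simp) (by simp) X1' X2' Y1' Y2' hB' Ψ hΨ false {Sd.C}
    (shC (negC C) n (!c0) v.2).le (agr_le (C := negC C) (by omega) (show v.2 + 4 ≤ n * C.H by omega)))
  exact nf_s2 h8 (by omega) (by omega) g1 g1' (mb_of hB) (mb_of hB') hO

end Pool.Agent.H31.W
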