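import Mathlib
import Pool.Agent.H20.W.TopS
import Pool.Agent.H31.W.NatPt
import Pool.Agent.H62.W.FieldsB

set_option autoImplicit false
open Filter Topology Set

/-! # The natural inputs of the closing theorem

`nS_s1`, `nS_pp`, `nS_s2` : the relations between helper20's natural values `nS`, uniform on compact sets.
`natPt_hI` : the pointwise natural inputs for the values `hI`. `stNat` : **the leaf `StNat`.** -/

namespace Pool.Agent.H31.W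

open Pool.Agent.Q1.M4 (lat)
open Pool.Agent.Q1.M6f.Glue (uu rr)
open Pool.Agent.H44.FM.WG (Sh)
open Pool.Agent.H44.W
open Pool.Agent.H54.W (Win CD NE PsT)
open Pool.Agent.H42.Sp (Sd)
open Pool.Agent.H62.W (ZS Phi PtB NatPt LA_of_pow)
open Pool.Agent.H20.W (OmC Th hI nS xC gSd bX1 bX2 bY1 bY2 PsT_le PsT_only PsT_neg hI_true negC_negC StNat)
open Pool.Agent.H33.W (Only negC)
open G4

variable {C : CD} {c0 : Bool} {n : ℤ}

/-- the canonical boxes have the margins -/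
lemma boxB {he : n % 2 = 0} {h8 : 8 ≤ n} {r r' : ℤ} {c' : Bool} :
    BoxD (Df C n he h8 c0 r) (bX1 C n) (bX2 C n c' r') (bY1 n) (bY2 C n) := by
  unfold bX1 bX2 bY1 bY2
  refine ⟨?_, ?_, by omega, ?_⟩
  · rw [CD.win_lo]; omega
  · rw [CD.win_w]
    have : 0 ≤ (if c' then r' % 2 else (r' + 1) % 2) := by split_ifs <;> omega
    omega
  · rw [CD.win_h]; omega

lemma img1 (g : G4) : ({g} : Finset G4).image gSd = {gSd g} := Finset.image_singleton _ _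

variable (C) in
theorem nS_s1 {K : Set ℂ} (hK : K ⊆ OmC C) (hKc : IsCompact K) (c0 : Bool) : ∃ L α : ℝ, 0 < α ∧ ∃ n0 : ℕ,
    ∀ n : ℤ, (n0 : ℤ) ≤ n → ∀ (he : n % 2 = 0) (h8 : 8 ≤ n) (v : ℤ × ℤ), lat v / ((n : ℝ) : ℂ) ∈ K →
    ∀ Ψ : (NE → NE → Prop) → ℂ, (∀ a, ‖Ψ a‖ ≤ 1) →
    ‖nS C n c0 v he h8 Ψ true {ce} - nS C n c0 v he h8 Ψ false {fo}‖ ≤ L * (n : ℝ) ^ (-(1 + α)) := by
  obtain ⟨L, α, -, hα, n0, h⟩ := Pool.Agent.H95.W.s1K C c0 hK hKc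
  refine ⟨L, α, hα, n0, fun n h0 he h8 v hv Ψ hΨ => ?_⟩
  rw [norm_sub_rev]
  unfold nS
  rw [img1, img1]
  refine (h n h0 he h8 v hv _ _ _ _ boxB Ψ hΨ).trans (le_of_eq ?_)
  have hnp : (0 : ℝ) < n := by
    have : (8 : ℝ) ≤ n := by exact_mod_cast h8
    linarith
  rw [Real.rpow_neg hnp.le, one_div, Real.inv_rpow hnp.le]

variable (C) in
theorem nS_pp {K : Set ℂ} (hK : K ⊆ OmC C) (hKc : IsCompact K) : ∃ L α : ℝ, 0 < α ∧ ∃ n0 : ℕ,
    ∀ n : ℤ, (n0 : ℤ) ≤ n → ∀ (he : n % 2 = 0) (h8 : 8 ≤ n) (v : ℤ × ℤ), lat v / ((n : ℝ) : ℂ) ∈ K →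
    ∀ (c0 : Bool) (Ψ : (NE → NE → Prop) → ℂ), (∀ a, ‖Ψ a‖ ≤ 1) → Only C c0 Ψ →
    ‖nS (negC C) n (!c0) v he h8 Ψ false ∅ - nS C n c0 (v - rr) he h8 Ψ true ∅‖ ≤
      L * (n : ℝ) ^ (-(1 + α)) := by
  obtain ⟨L, α, hα, n0, h⟩ := ppK C hK hKc
  refine ⟨L, α, hα, n0, fun n h0 he h8 v hv c0 Ψ hΨ hO => ?_⟩
  rw [norm_sub_rev]
  unfold nS
  rw [Finset.image_empty]
  have e1 : (v - rr).1 = v.1 - 1 := rfl
  have e2 : (v - rr).2 = v.2 := sub_zero _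
  unfold Pool.Agent.H20.W.Ph Pool.Agent.H20.W.Zz Pool.Agent.H20.W.Dz
  rw [e1, e2]
  exact h n h0 v hv he h8 c0 _ _ _ _ _ _ _ _ boxB (boxB (C := C)) Ψ hΨ hO

variable (C) in
theorem nS_s2 {K : Set ℂ} (hK : K ⊆ OmC C) (hKc : IsCompact K) : ∃ L α : ℝ, 0 < α ∧ ∃ n0 : ℕ,
    ∀ n : ℤ, (n0 : ℤ) ≤ n → ∀ (he : n % 2 = 0) (h8 : 8 ≤ n) (v : ℤ × ℤ), lat v / ((n : ℝ) : ℂ) ∈ K →
    ∀ (c0 : Bool) (Ψ : (NE → NE → Prop) → ℂ), (∀ a, ‖Ψ a‖ ≤ 1) → Only C c0 Ψ →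
    ‖nS (negC C) n (!c0) v he h8 Ψ false {le} - nS C n c0 (v - uu) he h8 Ψ false {ri}‖ ≤
      L * (n : ℝ) ^ (-(1 + α)) := by
  obtain ⟨L, α, hα, n0, h⟩ := s2K C hK hKc
  refine ⟨L, α, hα, n0, fun n h0 he h8 v hv c0 Ψ hΨ hO => ?_⟩
  rw [norm_sub_rev]
  unfold nS
  rw [img1, img1]
  have e1 : (v - uu).1 = v.1 := sub_zero _
  have e2 : (v - uu).2 = v.2 - 1 := rfl
  unfold Pool.Agent.H20.W.Ph Pool.Agent.H20.W.Zz Pool.Agent.H20.W.Dz
  rw [e1, e2]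
  exact h n h0 v hv he h8 c0 _ _ _ _ _ _ _ _ boxB (boxB (C := C)) Ψ hΨ hO

/-- eventually along the scales -/
lemma pt_ev {F : Filter ℕ} {m : ℕ → ℕ} (hm : Tendsto m F atTop) {K : Set ℂ} {A B : ℕ → ℤ × ℤ → ℂ} {L α : ℝ} {n0 : ℕ}
    (h : ∀ j, (n0 : ℤ) ≤ 2 * (m j : ℤ) → 4 ≤ m j → ∀ v : ℤ × ℤ, lat v / (((2 * (m j : ℤ) : ℤ) : ℝ) : ℂ) ∈ K →
      ‖B j v - A j v‖ ≤ L * ((2 * (m j : ℤ) : ℤ) : ℝ) ^ (-(1 + α))) :
    ∀ᶠ j in F, ∀ v : ℤ × ℤ, lat v / (((2 * m j : ℕ) : ℝ) : ℂ) ∈ K →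
      ‖B j v - A j v‖ ≤ L * (((2 * m j : ℕ) : ℝ)) ^ (-(1 + α)) := by
  filter_upwards [hm.eventually_ge_atTop n0, hm.eventually_ge_atTop 4] with j hj h4 v hv
  have e : ((2 * (m j : ℤ) : ℤ) : ℝ) = ((2 * m j : ℕ) : ℝ) := by push_cast; rfl
  have := h j (by omega) h4 v (by rw [e]; exact hv)
  rw [e] at this
  exact this

/-- the values at the scales -/
lemma hI_eq (θ : Th C c0) {m : ℕ → ℕ} {j : ℕ} (h : 4 ≤ m j) (he : (2 * (m j : ℤ)) % 2 = 0)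
    (h8 : 8 ≤ 2 * (m j : ℤ)) (q p : Bool) (s : Finset G4) (v : ℤ × ℤ) :
    hI θ m q p s j v = nS (xC q C) (2 * m j) (c0 ^^ q) v he h8 (PsT θ) p s := by
  unfold hI
  rw [dif_pos h]

/-- **The natural inputs**, pointwise. -/
theorem natPt_hI (θ : Th C c0) {F : Filter ℕ} {m : ℕ → ℕ} (hm : Tendsto m F atTop) :
    NatPt (fun j => ((2 * m j : ℕ) : ℝ)) F (OmC C) (hI θ m) where
  s1 := by
    intro q K hK hKc
    obtain ⟨L, α, hα, n0, h⟩ := nS_s1 (xC q C) (K := K) (by cases q <;> exact hK) hKc (c0 ^^ q)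
    refine ⟨L, α, hα, pt_ev hm (n0 := n0) fun j h0 h4 v hv => ?_⟩
    rw [hI_eq θ h4 (by omega) (by omega), hI_eq θ h4 (by omega) (by omega)]
    exact h _ h0 (by omega) (by omega) v hv _ (PsT_le θ)
  pp := by
    intro q K hK hKc
    cases q
    · obtain ⟨L, α, hα, n0, h⟩ := nS_pp C hK hKc
      refine ⟨L, α, hα, pt_ev hm (n0 := n0) fun j h0 h4 v hv => ?_⟩
      unfold Sh
      rw [hI_eq θ h4 (by omega) (by omega), hI_eq θ h4 (by omega) (by omega)]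
      have := h _ h0 (by omega) (by omega) v hv c0 _ (PsT_le θ) (PsT_only θ)
      unfold xC
      simp only [Bool.not_false, Bool.false_eq_true, if_false, if_true, Bool.xor_false, Bool.xor_true]
      exact this
    · obtain ⟨L, α, hα, n0, h⟩ := nS_pp (negC C) (K := K) hK hKc
      refine ⟨L, α, hα, pt_ev hm (n0 := n0) fun j h0 h4 v hv => ?_⟩
      unfold Sh
      rw [hI_eq θ h4 (by omega) (by omega), hI_eq θ h4 (by omega) (by omega)]
      have := h _ h0 (by omega) (by omega) v hv (!c0) _ (PsT_le θ.neg) (PsT_only θ.neg)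
      rw [PsT_neg, negC_negC, Bool.not_not] at this
      unfold xC
      simp only [Bool.not_true, Bool.false_eq_true, if_false, if_true, Bool.xor_false, Bool.xor_true]
      exact this
  s2 := by
    intro q K hK hKc
    cases q
    · obtain ⟨L, α, hα, n0, h⟩ := nS_s2 C hK hKc
      refine ⟨L, α, hα, pt_ev hm (n0 := n0) fun j h0 h4 v hv => ?_⟩
      unfold Sh
      rw [hI_eq θ h4 (by omega) (by omega), hI_eq θ h4 (by omega) (by omega)]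
      have := h _ h0 (by omega) (by omega) v hv c0 _ (PsT_le θ) (PsT_only θ)
      unfold xC
      simp only [Bool.not_false, Bool.false_eq_true, if_false, if_true, Bool.xor_false, Bool.xor_true]
      exact this
    · obtain ⟨L, α, hα, n0, h⟩ := nS_s2 (negC C) (K := K) hK hKc
      refine ⟨L, α, hα, pt_ev hm (n0 := n0) fun j h0 h4 v hv => ?_⟩
      unfold Sh
      rw [hI_eq θ h4 (by omega) (by omega), hI_eq θ h4 (by omega) (by omega)]
      have := h _ h0 (by omega) (by omega) v hv (!c0) _ (PsT_le θ.neg) (PsT_only θ.neg)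
      rw [PsT_neg, negC_negC, Bool.not_not] at this
      unfold xC
      simp only [Bool.not_true, Bool.false_eq_true, if_false, if_true, Bool.xor_false, Bool.xor_true]
      exact this

/-- **The relations between the natural values.** -/
theorem stNat : StNat := by
  intro C _ c0 θ m U hm
  have hR : Tendsto (fun j => ((2 * m j : ℕ) : ℝ)) U atTop :=
    tendsto_natCast_atTop_atTop.comp (tendsto_atTop_mono (fun j => by omega) hm)
  have H := natPt_hI θ hm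
  exact ⟨fun q => LA_of_pow hR (H.s1 q), fun q => LA_of_pow hR (H.pp q), fun q => LA_of_pow hR (H.s2 q)⟩

end Pool.Agent.H31.W
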