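import Mathlib
import Pool.Agent.H31.W.InstN
import Pool.Agent.H29.W.RoomP

set_option autoImplicit false
set_option linter.constructorNameAsVariable false
open Filter Topology Set

/-! # The value of the room is the natural value

`partner` : in the room graph every name is joined to another name (helper29's `act_room`). `stFT` : **the leaf
`StFT`.** -/

namespace Pool.Agent.H31.W

open Pool.Agent.Q1.M4 (lat)
open Pool.Agent.H44.W
open Pool.Agent.H54.W (Win CD NE PsT Partner BoxIn neK ok_cases ok_neK pe_neK nat_FT Zb mem_Zb)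
open Pool.Agent.H42.Sp (Sd)
open Pool.Agent.H62.W (ZS Phi mem_ZS)
open Pool.Agent.H20.W (OmC Th nS crz bX1 bX2 bY1 bY2 PsT_le FT StFT Mk)
open Pool.Agent.H33.Q1 (lt tt tt_lt)
open Pool.Agent.H21.W (RP fillC ER)
open Pool.Agent.H72.W.N (EN mem_EN natc PT InP inP_iff sh sh_false)
open Pool.Agent.H14.W (EPn)
open Pool.Agent.H29.W (act_room CrOk An cn)
open Pool.Agent.H47.W (Act)
open Pool.Agent.H27.W.G (pt_rp natc_fill)
open Pool.Agent.Q1

variable {C : CD} {c0 : Bool} {n x0 r : ℤ}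

/-- **In the room graph every name is joined to another name.** -/
theorem partner (hn : 8 ≤ n) (he : n % 2 = 0) (hr0 : 0 < r) (hr1 : r + 1 < n * C.H) (hz : RP C n x0 r) :
    Partner C n (crz c0 r) c0 x0 r := by
  have hc : CrOk (crz c0 r) c0 r :=
    ⟨fun y hy => by unfold crz; rw [if_pos hy], fun y hy => by unfold crz; rw [if_neg (by omega)]⟩
  intro ω hω a ha
  have A := act_room hn he hc hr0 hr1 hz.2.2.1 hz.2.2.2.le hω
  rcases ok_cases ha with rfl | ⟨k, hk, rfl⟩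
  · obtain ⟨b, hb, hne, hr⟩ := A.pt none trivial
    cases b with
    | none => exact absurd rfl hne
    | some k =>
      refine ⟨neK C k, ok_neK hb, Pool.Agent.H54.W.neK_ne_z, ?_⟩
      rw [pe_neK hb]
      exact hr
  · obtain ⟨b, hb, hne, hr⟩ := A.pt (some k) hk
    rw [pe_neK hk]
    cases b with
    | none => exact ⟨NE.z, trivial, Pool.Agent.H54.W.neK_ne_z.symm, hr⟩
    | some k' =>
      refine ⟨neK C k', ok_neK hb, fun e => hne ?_, ?_⟩
      · rw [Pool.Agent.H54.W.neK_inj hb.1 hb.2.1 hk.1 hk.2.1 e]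
      · rw [pe_neK hb]
        exact hr

open Classical in
/-- the open labels of the box outside of the room -/
noncomputable def wB (C : CD) (n : ℤ) (c0 : Bool) (x0 r X1 X2 Y1 Y2 : ℤ) : Finset (ℤ × ℤ) :=
  (ZS X1 X2 Y1 Y2 x0 r).filter fun e => ¬ RP C n (tt e).1 (tt e).2 ∧ fillC C n (crz c0 r) (tt e).1 (tt e).2 = true

variable {X1 X2 Y1 Y2 x y : ℤ}

lemma mem_wB : lt (x, y) ∈ wB C n c0 x0 r X1 X2 Y1 Y2 ↔ lt (x, y) ∈ ZS X1 X2 Y1 Y2 x0 r ∧ ¬ RP C n x y ∧
    fillC C n (crz c0 r) x y = true := by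
  classical
  unfold wB
  rw [Finset.mem_filter, tt_lt]

/-- labels which are open anyway -/
lemma ec_sdiff {q : ℤ × ℤ → ℂ} {E W : Finset (ℤ × ℤ)} {F : Finset (ℤ × ℤ) → ℂ} :
    Ec q E (fun w => F (w ∪ W)) = Ec q (E \ W) (fun w => F (w ∪ W)) := by
  rw [Ec_split q (Finset.sdiff_subset : E \ W ⊆ E)]
  refine Ec_congr fun ω1 h1 => ?_
  rw [Ec_congr (G := fun _ => F (ω1 ∪ W)) fun ω2 h2 => ?_, Ec_const]
  congr 1
  ext e
  simp only [Finset.mem_union]
  constructor
  · rintro ((h | h) | h)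
    · exact Or.inl h
    · right
      have := Finset.mem_sdiff.1 (h2 h)
      by_contra hc
      exact this.2 (Finset.mem_sdiff.2 ⟨this.1, hc⟩)
    · exact Or.inr h
  · rintro (h | h)
    · exact Or.inl (Or.inl h)
    · exact Or.inr h

/-- **The value of the room is the natural value.** -/
theorem stFT : StFT := by
  intro C _ c0 θ K hK hKc ε hε
  obtain ⟨L, α, hα, n1, h1⟩ := pk C hK hKc zero_le_one
  obtain ⟨n3, h3⟩ := geoK C hK hKc
  have hT : Tendsto (fun m : ℕ => |L| * (((2 * m : ℕ) : ℝ)) ^ (-(1 + α))) atTop (𝓝 0) := by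
    have h2 : Tendsto (fun m : ℕ => ((2 * m : ℕ) : ℝ)) atTop atTop :=
      tendsto_natCast_atTop_atTop.comp (tendsto_atTop_mono (fun m => (by omega : m ≤ 2 * m)) tendsto_id)
    have := ((tendsto_rpow_neg_atTop (show 0 < 1 + α by linarith)).comp h2).const_mul |L|
    rw [mul_zero] at this
    exact this
  obtain ⟨m0, hm0⟩ := Filter.eventually_atTop.1 (hT.eventually (ge_mem_nhds hε))
  refine ⟨max m0 (max n1 n3), fun m hm he h8 v hv => ?_⟩
  have k0 : m0 ≤ m := le_trans (le_max_left _ _) hm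
  have k1 : n1 ≤ m := le_trans ((le_max_left _ _).trans (le_max_right _ _)) hm
  have k3 : n3 ≤ m := le_trans ((le_max_right _ _).trans (le_max_right _ _)) hm
  have e : (((2 * (m : ℤ) : ℤ)) : ℝ) = ((2 * m : ℕ) : ℝ) := by push_cast; rfl
  have hv' : lat v / (((2 * (m : ℤ) : ℤ) : ℝ) : ℂ) ∈ K := by rw [e]; exact hv
  obtain ⟨g1, g2, g3⟩ := h3 (2 * m) (by omega) v hv' he h8 v.1 v.2 (by simp) (by simp)
  set n : ℤ := 2 * (m : ℤ) with hn
  have hB : BoxD (Df C n he h8 c0 v.2) (bX1 C n) (bX2 C n c0 v.2) (bY1 n) (bY2 C n) := boxB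
  have hM := mb_of hB
  have BI : BoxIn C n (crz c0 v.2) c0 v.1 v.2 (bX1 C n) (bX2 C n c0 v.2) (bY1 n) (bY2 C n)
      (wB C n c0 v.1 v.2 (bX1 C n) (bX2 C n c0 v.2) (bY1 n) (bY2 C n)) := by
    refine ⟨h8, he, ?_, ?_, ?_, ?_, g1, by omega, by omega, fun y _ h => by unfold crz; rw [if_pos h],
      fun y h _ => by unfold crz; rw [if_neg (by omega)], fun x y h h' => (mem_wB.1 h').2.1 h, ?_⟩
    · have := hM.x1; omega
    · have := hM.x2; omega
    · unfold bY1; omega
    · have := hM.y2; omega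
    · intro x y a1 a2 a3 a4 a5 a6
      rw [mem_wB, mem_ZS]
      refine ⟨fun h => h.2.2, fun h => ⟨⟨⟨a1, a2, a3, a4⟩, fun h => a6 ?_⟩, a5, h⟩⟩
      exact h
  have hP : Partner C n (crz c0 v.2) c0 v.1 v.2 := partner h8 he (by omega) (by omega) g1
  have key := nat_FT (cr := crz c0 v.2) he h8 BI hP θ
  have k2 := h1 n (by omega) v hv' he h8 c0 v.1 v.2 (by simp) (by simp) _ _ _ _ hB
    (Phi C n c0 v.1 v.2 (bX1 C n) (bX2 C n c0 v.2) (bY1 n) (bY2 C n) (PsT θ))
    (funZ_Phi C n c0 zero_le_one (PsT_le θ)) false ∅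
    (EN (C.win n he h8 (crz c0 v.2)) false \ wB C n c0 v.1 v.2 (bX1 C n) (bX2 C n c0 v.2) (bY1 n) (bY2 C n))
    (wB C n c0 v.1 v.2 (bX1 C n) (bX2 C n c0 v.2) (bY1 n) (bY2 C n)) Finset.sdiff_disjoint ?_
  · rw [← ec_sdiff, key] at k2
    have e3 : ((v.1, v.2) : ℤ × ℤ) = v := rfl
    rw [e3] at k2
    rw [norm_sub_rev]
    refine le_trans k2 ?_
    refine le_trans (mul_le_mul_of_nonneg_right (le_abs_self L) (by positivity)) ?_
    rw [e]
    exact hm0 m k0
  · intro x y hz hf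
    have hp := pt_rp (C := C) (n := n) (he := he) (h8 := h8) (cr := crz c0 v.2) (X := x) (Y := y) (x := x) (y := y)
      (by simp) (by simp) hf
    have hE : EPn (Df C n he h8 c0 v.2) ∅ (x + sh false) y ↔ RP C n x y := by
      rw [← hp, sh_false, add_zero]
      unfold EPn
      simp
    rw [hE, Finset.mem_sdiff, mem_EN, mem_wB, natc_fill (he := he) (h8 := h8) hf]
    have hI : InP (C.win n he h8 (crz c0 v.2)) false x y ↔ RP C n x y := by
      rw [inP_iff, sh_false, add_zero]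
      exact hp
    rw [hI]
    tauto

end Pool.Agent.H31.W
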