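import Mathlib
import Pool.Agent.H14.W.NLoc
import Pool.Agent.H95.W.CoR

set_option autoImplicit false
open Finset

/-! # Frozen tiles of the natural windows are near the corners (class `H54.W.Win`)

`CrP n H W A` : the corners of the polyomino, in the coordinates of `P`: convex and reflex corners of the left arc,
SW, NW, SE, NE. `ring_tie` : a tile next to `P^p` which is not on the right wall and not near a corner belongs to a
tie. `frt_near` : the frozen tiles off the right wall are near the corners. -/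

namespace Pool.Agent.H31.W

open Pool.Agent.H54.W (Win)
open Pool.Agent.H95.W (CoarseR CoarseRC)
open Pool.Agent.H72.W.N
open Pool.Agent.H14.W (SQ)
open Pool.Agent.H42.Sp (Sd Ix kt rt)

variable {D : Win} {n H W : ℤ} {A : ℤ → ℤ} {CL : ℤ → Bool} {p : Bool} {x y z Y cx c : ℤ}

/-- **Corners of the polyomino**, coordinates of `P` -/
def CrP (n H W : ℤ) (A : ℤ → ℤ) (cx c : ℤ) : Prop :=
  (∃ Y, 0 < Y ∧ Y < H ∧ A (Y - 1) ≠ A Y ∧ c = n * Y ∧ (cx = n * A (Y - 1) ∨ cx = n * A Y)) ∨
    (c = 0 ∧ (cx = n * A 0 ∨ cx = n * W)) ∨ (c = n * H ∧ (cx = n * A (H - 1) ∨ cx = n * W))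

/-- the rows above a level -/
lemma row_up (C : CoarseRC D n H W A CL) (h0 : 0 ≤ Y) (h1 : Y < H) (k0 : n * Y ≤ z)
    (k1 : z + 1 < n * Y + n) : 0 ≤ z ∧ z < D.h ∧ D.cl z = CL Y ∧
    (D.a z = n * A Y ∨ (D.a z = n * A Y - 1 ∧ z = n * Y ∧ 0 < Y ∧ A (Y - 1) < A Y)) := by
  have hn := C.pos
  obtain ⟨r1, r2, -⟩ := C.row0 h0 h1
  have e1 : z / n = Y := by
    rw [Int.ediv_eq_iff_of_pos hn]
    constructor <;> nlinarith
  have e2 : z % n = z - n * Y := by
    have := Int.emod_add_mul_ediv z n
    rw [e1] at this; omega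
  have a0 : 0 ≤ z := by omega
  have a1 : z < D.h := by omega
  refine ⟨a0, a1, by rw [C.cl z a0 a1, e1], ?_⟩
  have := C.a z a0 a1
  rw [e1, e2] at this
  rcases this with h | ⟨h, ⟨h2, -⟩ | ⟨h2, h3, h4⟩⟩
  · exact Or.inl h
  · omega
  · exact Or.inr ⟨h, by omega, h3, h4⟩

/-- the rows below a level -/
lemma row_dn (C : CoarseRC D n H W A CL) (h0 : 0 < Y) (h1 : Y ≤ H) (k0 : n * Y < z + n)
    (k1 : z < n * Y) : 0 ≤ z ∧ z < D.h ∧ D.cl z = CL (Y - 1) ∧
    (D.a z = n * A (Y - 1) ∨ (D.a z = n * A (Y - 1) - 1 ∧ z = n * Y - 1 ∧ Y < H ∧ A Y < A (Y - 1))) := by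
  have hn := C.pos
  obtain ⟨r1, r2, -⟩ := C.row0 (Y := Y - 1) (by omega) (by omega)
  have e0 : n * (Y - 1) = n * Y - n := by ring
  have e1 : z / n = Y - 1 := by
    rw [Int.ediv_eq_iff_of_pos hn]
    constructor <;> nlinarith
  have e2 : z % n = z - (n * Y - n) := by
    have := Int.emod_add_mul_ediv z n
    rw [e1] at this; omega
  have a0 : 0 ≤ z := by omega
  have a1 : z < D.h := by omega
  refine ⟨a0, a1, by rw [C.cl z a0 a1, e1], ?_⟩
  have := C.a z a0 a1
  rw [e1, e2] at this
  rcases this with h | ⟨h, ⟨h2, h3, h4⟩ | ⟨h2, -⟩⟩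
  · exact Or.inl h
  · exact Or.inr ⟨h, by omega, by omega, by rw [sub_add_cancel] at h4; exact h4⟩
  · omega

/-! ### Ties -/

lemma par_next {m k : ℤ} {P : Prop} (h : ¬ (m % 2 = 1 ↔ P)) (hk : k = m + 1) : k % 2 = 1 ↔ P := by
  by_cases hP : P
  · simp only [hP, iff_true] at h ⊢; omega
  · simp only [hP, iff_false] at h ⊢; omega

lemma tie_L (h1 : LyA D p .L x (y - 1)) (h2 : LyA D p .L x y) (h3 : LyA D p .L x (y + 1))
    (hc : ∀ x' y', x - 1 ≤ x' → x' ≤ x → y - 1 ≤ y' → y' ≤ y + 1 → natc D p x' y' = natc D p x y) :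
    ∃ k : Ix, CA D p k ∧ k.1 = .L ∧ (kt k = (x, y) ∨ rt k = (x, y)) := by
  by_cases q : (x + y) % 2 = 1 ↔ natc D p x y = true
  · refine ⟨(.L, (x, y)), ⟨h1, h2, ?_⟩, rfl, ?_⟩
    · unfold Col4
      rw [hc (x - 1) y (by omega) (by omega) (by omega) (by omega),
        hc x (y - 1) (by omega) (by omega) (by omega) (by omega),
        hc (x - 1) (y - 1) (by omega) (by omega) (by omega) (by omega)]
      exact ⟨q, q, q, q⟩
    · by_cases hp : (x + y) % 2 = 1
      · left; unfold kt; simp only; rw [if_pos hp]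
      · right; unfold rt; simp only; rw [if_neg hp]
  · have q' : (x + (y + 1)) % 2 = 1 ↔ natc D p x y = true :=
      par_next q (by ring)
    refine ⟨(.L, (x, y + 1)), ⟨by rw [add_sub_cancel_right]; exact h2, h3, ?_⟩, rfl, ?_⟩
    · unfold Col4
      rw [add_sub_cancel_right, hc (x - 1) y (by omega) (by omega) (by omega) (by omega),
        hc x (y + 1) (by omega) (by omega) (by omega) (by omega),
        hc (x - 1) (y + 1) (by omega) (by omega) (by omega) (by omega)]
      exact ⟨q', q', q', q'⟩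
    · by_cases hp : (x + (y + 1)) % 2 = 1
      · right; unfold rt; simp only; rw [if_pos hp, add_sub_cancel_right]
      · left; unfold kt; simp only; rw [if_neg hp, add_sub_cancel_right]

lemma tie_R (h1 : LyA D p .R x (y - 1)) (h2 : LyA D p .R x y) (h3 : LyA D p .R x (y + 1))
    (hc : ∀ x' y', x ≤ x' → x' ≤ x + 1 → y - 1 ≤ y' → y' ≤ y + 1 → natc D p x' y' = natc D p x y) :
    ∃ k : Ix, CA D p k ∧ k.1 = .R ∧ (kt k = (x, y) ∨ rt k = (x, y)) := by
  by_cases q : ((x + 1) + y) % 2 = 1 ↔ natc D p x y = true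
  · refine ⟨(.R, (x + 1, y)), ⟨by rw [add_sub_cancel_right]; exact h1,
      by rw [add_sub_cancel_right]; exact h2, ?_⟩, rfl, ?_⟩
    · unfold Col4
      rw [add_sub_cancel_right, hc (x + 1) y (by omega) (by omega) (by omega) (by omega),
        hc x (y - 1) (by omega) (by omega) (by omega) (by omega),
        hc (x + 1) (y - 1) (by omega) (by omega) (by omega) (by omega)]
      exact ⟨q, q, q, q⟩
    · by_cases hp : ((x + 1) + y) % 2 = 1
      · right; unfold rt; simp only; rw [if_pos hp, add_sub_cancel_right]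
      · left; unfold kt; simp only; rw [if_neg hp, add_sub_cancel_right]
  · have q' : ((x + 1) + (y + 1)) % 2 = 1 ↔ natc D p x y = true :=
      par_next q (by ring)
    refine ⟨(.R, (x + 1, y + 1)), ⟨by rw [add_sub_cancel_right, add_sub_cancel_right]; exact h2,
      by rw [add_sub_cancel_right]; exact h3, ?_⟩, rfl, ?_⟩
    · unfold Col4
      rw [add_sub_cancel_right, add_sub_cancel_right,
        hc (x + 1) (y + 1) (by omega) (by omega) (by omega) (by omega),
        hc x (y + 1) (by omega) (by omega) (by omega) (by omega),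
        hc (x + 1) y (by omega) (by omega) (by omega) (by omega)]
      exact ⟨q', q', q', q'⟩
    · by_cases hp : ((x + 1) + (y + 1)) % 2 = 1
      · left; unfold kt; simp only; rw [if_pos hp, add_sub_cancel_right, add_sub_cancel_right]
      · right; unfold rt; simp only; rw [if_neg hp, add_sub_cancel_right, add_sub_cancel_right]

lemma tie_F (h1 : LyA D p .F (x - 1) y) (h2 : LyA D p .F x y) (h3 : LyA D p .F (x + 1) y)
    (hc : ∀ x' y', x - 1 ≤ x' → x' ≤ x + 1 → y - 1 ≤ y' → y' ≤ y → natc D p x' y' = natc D p x y) :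
    ∃ k : Ix, CA D p k ∧ k.1 = .F ∧ (kt k = (x, y) ∨ rt k = (x, y)) := by
  by_cases q : (x + y) % 2 = 1 ↔ natc D p x y = true
  · refine ⟨(.F, (x, y)), ⟨h1, h2, ?_⟩, rfl, ?_⟩
    · unfold Col4
      rw [hc (x - 1) y (by omega) (by omega) (by omega) (by omega),
        hc x (y - 1) (by omega) (by omega) (by omega) (by omega),
        hc (x - 1) (y - 1) (by omega) (by omega) (by omega) (by omega)]
      exact ⟨q, q, q, q⟩
    · by_cases hp : (x + y) % 2 = 1
      · left; unfold kt; simp only; rw [if_pos hp]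
      · right; unfold rt; simp only; rw [if_neg hp]
  · have q' : ((x + 1) + y) % 2 = 1 ↔ natc D p x y = true :=
      par_next q (by ring)
    refine ⟨(.F, (x + 1, y)), ⟨by rw [add_sub_cancel_right]; exact h2, h3, ?_⟩, rfl, ?_⟩
    · unfold Col4
      rw [add_sub_cancel_right, hc (x + 1) y (by omega) (by omega) (by omega) (by omega),
        hc x (y - 1) (by omega) (by omega) (by omega) (by omega),
        hc (x + 1) (y - 1) (by omega) (by omega) (by omega) (by omega)]
      exact ⟨q', q', q', q'⟩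
    · by_cases hp : ((x + 1) + y) % 2 = 1
      · right; unfold rt; simp only; rw [if_pos hp, add_sub_cancel_right]
      · left; unfold kt; simp only; rw [if_neg hp, add_sub_cancel_right]

lemma tie_C (h1 : LyA D p .C (x - 1) y) (h2 : LyA D p .C x y) (h3 : LyA D p .C (x + 1) y)
    (hc : ∀ x' y', x - 1 ≤ x' → x' ≤ x + 1 → y ≤ y' → y' ≤ y + 1 → natc D p x' y' = natc D p x y) :
    ∃ k : Ix, CA D p k ∧ k.1 = .C ∧ (kt k = (x, y) ∨ rt k = (x, y)) := by
  by_cases q : (x + (y + 1)) % 2 = 1 ↔ natc D p x y = true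
  · refine ⟨(.C, (x, y + 1)), ⟨by rw [add_sub_cancel_right]; exact h1,
      by rw [add_sub_cancel_right]; exact h2, ?_⟩, rfl, ?_⟩
    · unfold Col4
      rw [add_sub_cancel_right, hc (x - 1) y (by omega) (by omega) (by omega) (by omega),
        hc x (y + 1) (by omega) (by omega) (by omega) (by omega),
        hc (x - 1) (y + 1) (by omega) (by omega) (by omega) (by omega)]
      exact ⟨q, q, q, q⟩
    · by_cases hp : (x + (y + 1)) % 2 = 1
      · right; unfold rt; simp only; rw [if_pos hp, add_sub_cancel_right]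
      · left; unfold kt; simp only; rw [if_neg hp, add_sub_cancel_right]
  · have q' : ((x + 1) + (y + 1)) % 2 = 1 ↔ natc D p x y = true :=
      par_next q (by ring)
    refine ⟨(.C, (x + 1, y + 1)), ⟨by rw [add_sub_cancel_right, add_sub_cancel_right]; exact h2,
      by rw [add_sub_cancel_right]; exact h3, ?_⟩, rfl, ?_⟩
    · unfold Col4
      rw [add_sub_cancel_right, add_sub_cancel_right,
        hc (x + 1) (y + 1) (by omega) (by omega) (by omega) (by omega),
        hc x (y + 1) (by omega) (by omega) (by omega) (by omega),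
        hc (x + 1) y (by omega) (by omega) (by omega) (by omega)]
      exact ⟨q', q', q', q'⟩
    · by_cases hp : ((x + 1) + (y + 1)) % 2 = 1
      · left; unfold kt; simp only; rw [if_pos hp, add_sub_cancel_right, add_sub_cancel_right]
      · right; unfold rt; simp only; rw [if_neg hp, add_sub_cancel_right, add_sub_cancel_right]

/-! ### Flat places -/

lemma mul_gap (hn : 0 < n) {u v : ℤ} (h : u < v) : n * u + n ≤ n * v := by nlinarith

/-- the row is near a level or far from the levels -/
lemma lev (C : CoarseRC D n H W A CL) (hn : 40 ≤ n) (h0 : -1 ≤ y) (h1 : y ≤ D.h) :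
    (∃ Y, 0 ≤ Y ∧ Y < H ∧ n * Y + 4 ≤ y ∧ y + 4 < n * Y + n) ∨
      ∃ Y, 0 ≤ Y ∧ Y ≤ H ∧ n * Y ≤ y + 4 ∧ y < n * Y + 4 := by
  have hp : 0 < n := by omega
  have hh := C.hh
  have e := Int.emod_add_mul_ediv y n
  have e1 := Int.emod_nonneg y hp.ne'
  have e2 := Int.emod_lt_of_pos y hp
  by_cases c1 : y % n < 4
  · right
    refine ⟨y / n, ?_, ?_, by omega, by omega⟩
    · by_contra hc
      have : n * (y / n) ≤ n * (-1) := mul_le_mul_of_nonneg_left (by omega) hp.le
      omega
    · by_contra hc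
      have : n * (H + 1) ≤ n * (y / n) := mul_le_mul_of_nonneg_left (by omega) hp.le
      have e3 : n * (H + 1) = n * H + n := by ring
      omega
  · by_cases c2 : n ≤ y % n + 4
    · right
      have e3 : n * (y / n + 1) = n * (y / n) + n := by ring
      refine ⟨y / n + 1, ?_, ?_, by omega, by omega⟩
      · by_contra hc
        have : n * (y / n + 1) ≤ n * (-1) := mul_le_mul_of_nonneg_left (by omega) hp.le
        omega
      · by_contra hc
        have : n * (H + 1) ≤ n * (y / n + 1) := mul_le_mul_of_nonneg_left (by omega) hp.le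
        have e4 : n * (H + 1) = n * H + n := by ring
        omega
    · left
      refine ⟨y / n, ?_, ?_, by omega, by omega⟩
      · by_contra hc
        have : n * (y / n) ≤ n * (-1) := mul_le_mul_of_nonneg_left (by omega) hp.le
        omega
      · by_contra hc
        have : n * H ≤ n * (y / n) := mul_le_mul_of_nonneg_left (by omega) hp.le
        omega

/-- a straight piece of the left wall -/
lemma flat_L {a0 : ℤ} {c0 : Bool} (hr : Ring D p x y) (hR : x + sh p < D.w)
    (h : ∀ z, y - 1 ≤ z → z ≤ y + 1 → 0 ≤ z ∧ z < D.h ∧ D.a z = a0 ∧ D.cl z = c0)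
    (h2 : D.a (y - 2) = a0 ∨ y - 2 < 0) (h2' : 0 ≤ y - 2)
    (h3 : D.a (y + 2) = a0) (h3' : y + 2 < D.h) :
    ∃ k : Ix, CA D p k ∧ k.1 ≠ .R ∧ (kt k = (x, y) ∨ rt k = (x, y)) := by
  obtain ⟨⟨Z, z1, z2, z3, z4, z5, z6⟩, hP⟩ := hr
  have s0 := sh_nonneg p
  have r0 := h y (by omega) (by omega)
  have r1 := h (y - 1) (by omega) (by omega)
  have r2 := h (y + 1) (by omega) (by omega)
  have rZ := h Z (by omega) (by omega)
  have hX : x + sh p + 1 = a0 := by
    by_contra hc
    exact hP ⟨by omega, by omega, by omega, by omega⟩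
  have e1 : y - 1 - 1 = y - 2 := by ring
  have e2 : y + 1 + 1 = y + 2 := by ring
  have key : ∃ k : Ix, CA D p k ∧ k.1 = .L ∧ (kt k = (x, y) ∨ rt k = (x, y)) := by
    refine tie_L ?_ ?_ ?_ ?_
    · refine ⟨by omega, by omega, by omega, fun _ => ?_, fun _ => ?_⟩
      · rw [e1]; omega
      · rw [sub_add_cancel]; omega
    · refine ⟨by omega, by omega, by omega, fun _ => by omega, fun _ => by omega⟩
    · refine ⟨by omega, by omega, by omega, fun _ => ?_, fun _ => ?_⟩
      · rw [add_sub_cancel_right]; omega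
      · rw [e2]; omega
    · intro x' y' g1 g2 g3 g4
      have rr := h y' g3 g4
      rw [natc_def, natc_def, if_neg (by omega), if_neg (by omega), if_pos (by omega),
        if_neg (by omega), if_neg (by omega), if_pos (by omega), rr.2.2.2, r0.2.2.2]
  obtain ⟨k, k1, k2, k3⟩ := key
  exact ⟨k, k1, by rw [k2]; decide, k3⟩

/-- a straight piece of a ceiling -/
lemma flat_C {c0 : Bool} (hx : x + 4 < D.w)
    (hd : 1 ≤ y ∧ y ≤ D.h ∧ D.a (y - 1) + 4 ≤ x)
    (hu : ∀ z, y ≤ z → z ≤ y + 1 → (z < D.h → x + 4 < D.a z) ∧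
      (if D.h ≤ z then D.ct else D.cl z) = c0) :
    ∃ k : Ix, CA D p k ∧ k.1 ≠ .R ∧ (kt k = (x, y) ∨ rt k = (x, y)) := by
  have s0 := sh_nonneg p
  have s1 := sh_le p
  have u0 := hu y le_rfl (by omega)
  have key : ∃ k : Ix, CA D p k ∧ k.1 = .C ∧ (kt k = (x, y) ∨ rt k = (x, y)) := by
    refine tie_C ?_ ?_ ?_ ?_
    · exact ⟨by omega, by omega, by omega, by omega, fun h => by have := u0.1 h; omega⟩
    · exact ⟨by omega, by omega, by omega, by omega, fun h => by have := u0.1 h; omega⟩
    · exact ⟨by omega, by omega, by omega, by omega, fun h => by have := u0.1 h; omega⟩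
    · intro x' y' g1 g2 g3 g4
      have e : ∀ x'' y'', x - 1 ≤ x'' → x'' ≤ x + 1 → y ≤ y'' → y'' ≤ y + 1 →
          natc D p x'' y'' = c0 := by
        intro x'' y'' k1 k2 k3 k4
        obtain ⟨u1, u2⟩ := hu y'' k3 k4
        rw [natc_def, if_neg (by omega)]
        by_cases q : D.h ≤ y''
        · rw [if_pos q] at u2 ⊢; exact u2
        · rw [if_neg q] at u2 ⊢
          have := u1 (by omega)
          rw [if_pos (by omega)]; exact u2
      rw [e x' y' g1 g2 g3 g4, e x y (by omega) (by omega) (by omega) (by omega)]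
  obtain ⟨k, k1, k2, k3⟩ := key
  exact ⟨k, k1, by rw [k2]; decide, k3⟩

/-- a straight piece of a floor -/
lemma flat_F {c0 : Bool} (hx : x + 4 < D.w)
    (hd : -1 ≤ y ∧ y + 1 < D.h ∧ D.a (y + 1) + 4 ≤ x)
    (hu : ∀ z, y - 1 ≤ z → z ≤ y → (0 ≤ z → x + 4 < D.a z) ∧
      (if z < 0 then D.cb else D.cl z) = c0) :
    ∃ k : Ix, CA D p k ∧ k.1 ≠ .R ∧ (kt k = (x, y) ∨ rt k = (x, y)) := by
  have s0 := sh_nonneg p
  have s1 := sh_le p
  have u0 := hu y (by omega) (by omega)
  have key : ∃ k : Ix, CA D p k ∧ k.1 = .F ∧ (kt k = (x, y) ∨ rt k = (x, y)) := by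
    refine tie_F ?_ ?_ ?_ ?_
    · exact ⟨by omega, by omega, by omega, by omega, fun h => by have := u0.1 h; omega⟩
    · exact ⟨by omega, by omega, by omega, by omega, fun h => by have := u0.1 h; omega⟩
    · exact ⟨by omega, by omega, by omega, by omega, fun h => by have := u0.1 h; omega⟩
    · intro x' y' g1 g2 g3 g4
      have e : ∀ x'' y'', x - 1 ≤ x'' → x'' ≤ x + 1 → y - 1 ≤ y'' → y'' ≤ y →
          natc D p x'' y'' = c0 := by
        intro x'' y'' k1 k2 k3 k4
        obtain ⟨u1, u2⟩ := hu y'' k3 k4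
        rw [natc_def]
        by_cases q : y'' < 0
        · rw [if_pos q] at u2 ⊢; exact u2
        · rw [if_neg q] at u2 ⊢
          have := u1 (by omega)
          rw [if_neg (by omega), if_pos (by omega)]; exact u2
      rw [e x' y' g1 g2 g3 g4, e x y (by omega) (by omega) (by omega) (by omega)]
  obtain ⟨k, k1, k2, k3⟩ := key
  exact ⟨k, k1, by rw [k2]; decide, k3⟩

/-- **Ring tiles off the right wall and off the corners are in ties.** -/
theorem ring_tie (C : CoarseRC D n H W A CL) (hn : 40 ≤ n) (hr : Ring D p x y)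
    (hR : x + sh p < D.w ∨ y < 0 ∨ D.h ≤ y)
    (hfar : ∀ cx c, CrP n H W A cx c → ¬ SQ D 4 cx c x y) :
    ∃ k : Ix, CA D p k ∧ k.1 ≠ .R ∧ (kt k = (x, y) ∨ rt k = (x, y)) := by
  have hr' := hr
  obtain ⟨⟨Z, z1, z2, z3, z4, z5, z6⟩, hP⟩ := hr
  have s0 := sh_nonneg p
  have s1 := sh_le p
  have hp : 0 < n := by omega
  have hh := C.hh
  have ww := C.ww
  have HH := C.HH
  have lo := D.hlo Z z3 z4
  have hP' : ¬ (0 ≤ y ∧ y < D.h ∧ D.a y ≤ x + sh p ∧ x + sh p < D.w) := hP
  have far : ∀ cx c, CrP n H W A cx c → c - 12 ≤ y → y ≤ c + 12 → x < cx - 12 ∨ cx + 12 < x := by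
    intro cx c h1 h2 h3
    by_contra hc
    push Not at hc
    exact hfar cx c h1 ⟨⟨hc.1, hc.2, h2, h3⟩, by omega, by omega, by omega, by omega⟩
  rcases lev C hn (y := y) (by omega) (by omega) with ⟨Y, y0, y1, y2, y3⟩ | ⟨Y, y0, y1, y2, y3⟩
  · -- far from the levels
    have row : ∀ z, y - 2 ≤ z → z ≤ y + 2 → 0 ≤ z ∧ z < D.h ∧ D.a z = n * A Y ∧ D.cl z = CL Y := by
      intro z k1 k2
      obtain ⟨g1, g2, g3, g4⟩ := row_up C y0 y1 (z := z) (by omega) (by omega)
      refine ⟨g1, g2, ?_, g3⟩
      rcases g4 with g4 | ⟨-, g4, -⟩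
      · exact g4
      · omega
    have r2 := row (y - 2) (by omega) (by omega)
    have r3 := row (y + 2) (by omega) (by omega)
    have r0 := row y (by omega) (by omega)
    exact flat_L hr' (by omega) (fun z k1 k2 => row z (by omega) (by omega)) (Or.inl r2.2.2.1) r2.1
      r3.2.2.1 r3.2.1
  -- near a level
  have up : ∀ z, n * Y ≤ z → z ≤ y + 4 → Y < H → 0 ≤ z ∧ z < D.h ∧ D.cl z = CL Y ∧
      (D.a z = n * A Y ∨ (D.a z = n * A Y - 1 ∧ z = n * Y ∧ 0 < Y ∧ A (Y - 1) < A Y)) :=
    fun z k1 k2 k3 => row_up C y0 k3 k1 (by omega)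
  have dn : ∀ z, y - 4 ≤ z → z < n * Y → 0 < Y → 0 ≤ z ∧ z < D.h ∧ D.cl z = CL (Y - 1) ∧
      (D.a z = n * A (Y - 1) ∨ (D.a z = n * A (Y - 1) - 1 ∧ z = n * Y - 1 ∧ Y < H ∧
        A Y < A (Y - 1))) := fun z k1 k2 k3 => row_dn C k3 y1 (by omega) k2
  rcases (by omega : Y = 0 ∨ Y = H ∨ (0 < Y ∧ Y < H)) with h | h | ⟨h, h'⟩
  · -- the bottom
    subst h
    rw [mul_zero] at *
    have g0 := C.AW 0 le_rfl HH
    have g := mul_gap hp g0
    have f1 := far (n * A 0) 0 (Or.inr (Or.inl ⟨rfl, Or.inl rfl⟩)) (by omega) (by omega)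
    have f2 := far (n * W) 0 (Or.inr (Or.inl ⟨rfl, Or.inr rfl⟩)) (by omega) (by omega)
    have row : ∀ z, 0 ≤ z → z ≤ y + 4 → z < D.h ∧ D.a z = n * A 0 := by
      intro z k1 k2
      obtain ⟨g1, g2, g3, g4⟩ := up z k1 k2 HH
      exact ⟨g2, by omega⟩
    have rZ := row Z z3 (by omega)
    have hy : y = -1 := by
      by_contra hc
      have ry := row y (by omega) (by omega)
      exact hP' ⟨by omega, by omega, by omega, by omega⟩
    have r0 := row 0 (by omega) (by omega)
    refine flat_F (c0 := D.cb) (by omega) ⟨by omega, by omega, ?_⟩ ?_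
    · rw [hy]; rw [show (-1 : ℤ) + 1 = 0 by norm_num]; omega
    · intro z k1 k2
      refine ⟨fun h => by omega, ?_⟩
      rw [if_pos (by omega)]
  · -- the top
    subst h
    have g0 := C.AW (Y - 1) (by omega) (by omega)
    have g := mul_gap hp g0
    have f1 := far (n * A (Y - 1)) (n * Y) (Or.inr (Or.inr ⟨rfl, Or.inl rfl⟩)) (by omega) (by omega)
    have f2 := far (n * W) (n * Y) (Or.inr (Or.inr ⟨rfl, Or.inr rfl⟩)) (by omega) (by omega)
    have row : ∀ z, y - 4 ≤ z → z < n * Y → 0 ≤ z ∧ D.a z = n * A (Y - 1) := by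
      intro z k1 k2
      obtain ⟨g1, g2, g3, g4⟩ := dn z k1 k2 HH
      exact ⟨g1, by omega⟩
    have rZ := row Z (by omega) (by omega)
    have hy : y = D.h := by
      by_contra hc
      have ry := row y (by omega) (by omega)
      exact hP' ⟨by omega, by omega, by omega, by omega⟩
    have r0 := row (y - 1) (by omega) (by omega)
    refine flat_C (c0 := D.ct) (by omega) ⟨by omega, by omega, by omega⟩ ?_
    intro z k1 k2
    refine ⟨fun h => by omega, ?_⟩
    rw [if_pos (by omega)]
  · -- an inner level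
    have gw := mul_gap hp (C.AW Y h.le h')
    have gw' := mul_gap hp (C.AW (Y - 1) (by omega) (by omega))
    have hYH : n * Y + n ≤ n * H := mul_gap hp h'
    have hY0 : n * 0 + n ≤ n * Y := mul_gap hp h
    rw [mul_zero] at hY0
    have rw1 : x + sh p < D.w := by omega
    rcases lt_trichotomy (A (Y - 1)) (A Y) with hA | hA | hA
    · -- rise
      have g := mul_gap hp hA
      have f1 := far (n * A (Y - 1)) (n * Y) (Or.inl ⟨Y, h, h', hA.ne, rfl, Or.inl rfl⟩)
        (by omega) (by omega)
      have f2 := far (n * A Y) (n * Y) (Or.inl ⟨Y, h, h', hA.ne, rfl, Or.inr rfl⟩)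
        (by omega) (by omega)
      have ru : ∀ z, n * Y ≤ z → z ≤ y + 4 → n * A Y - 1 ≤ D.a z ∧ D.a z ≤ n * A Y := by
        intro z k1 k2
        have := up z k1 k2 h'
        omega
      have rd : ∀ z, y - 4 ≤ z → z < n * Y → D.a z = n * A (Y - 1) := by
        intro z k1 k2
        have := dn z k1 k2 h
        omega
      have zc : n * Y ≤ Z ∨ Z < n * Y := by omega
      have hm : n * A (Y - 1) + 12 < x := by
        rcases zc with q | q
        · have := ru Z q (by omega); omega
        · have := rd Z (by omega) q; omega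
      by_cases q1 : n * A Y + 12 < x
      · exfalso
        refine hP' ⟨by omega, by omega, ?_, by omega⟩
        rcases (by omega : n * Y ≤ y ∨ y < n * Y) with q | q
        · have := ru y q (by omega); omega
        · have := rd y (by omega) q; omega
      · have hyY : n * Y ≤ y := by
          by_contra hc
          have := rd y (by omega) (by omega)
          exact hP' ⟨by omega, by omega, by omega, by omega⟩
        have hZ : Z < n * Y := by
          by_contra hc
          have := ru Z (by omega) (by omega)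
          omega
        have rr := rd (y - 1) (by omega) (by omega)
        refine flat_C (c0 := CL Y) (by omega) ⟨by omega, by omega, by omega⟩ ?_
        intro z k1 k2
        have u := up z (by omega) (by omega) h'
        refine ⟨fun _ => by omega, ?_⟩
        rw [if_neg (by omega)]
        exact u.2.2.1
    · -- no corner
      have hcl : CL (Y - 1) = CL Y := by
        have u := up (n * Y) le_rfl (by omega) h'
        have d := dn (n * Y - 1) (by omega) (by omega) h
        have := D.scl (n * Y - 1) (by omega) (by rw [sub_add_cancel]; omega)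
          (by rw [sub_add_cancel]; rw [hA] at d; omega)
        rw [sub_add_cancel] at this
        rw [← d.2.2.1, ← u.2.2.1, this]
      have row : ∀ z, y - 2 ≤ z → z ≤ y + 2 → 0 ≤ z ∧ z < D.h ∧ D.a z = n * A Y ∧ D.cl z = CL Y := by
        intro z k1 k2
        rcases (by omega : n * Y ≤ z ∨ z < n * Y) with q | q
        · have u := up z q (by omega) h'
          exact ⟨by omega, by omega, by omega, u.2.2.1⟩
        · have d := dn z (by omega) q h
          rw [hA] at d
          exact ⟨by omega, by omega, by omega, d.2.2.1.trans hcl⟩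
      have r2 := row (y - 2) (by omega) (by omega)
      have r3 := row (y + 2) (by omega) (by omega)
      exact flat_L hr' rw1 (fun z k1 k2 => row z (by omega) (by omega)) (Or.inl r2.2.2.1) r2.1
        r3.2.2.1 r3.2.1
    · -- drop
      have g := mul_gap hp hA
      have f1 := far (n * A (Y - 1)) (n * Y) (Or.inl ⟨Y, h, h', hA.ne', rfl, Or.inl rfl⟩)
        (by omega) (by omega)
      have f2 := far (n * A Y) (n * Y) (Or.inl ⟨Y, h, h', hA.ne', rfl, Or.inr rfl⟩)
        (by omega) (by omega)
      have ru : ∀ z, n * Y ≤ z → z ≤ y + 4 → D.a z = n * A Y := by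
        intro z k1 k2
        have := up z k1 k2 h'
        omega
      have rd : ∀ z, y - 4 ≤ z → z < n * Y → n * A (Y - 1) - 1 ≤ D.a z ∧ D.a z ≤ n * A (Y - 1) := by
        intro z k1 k2
        have := dn z k1 k2 h
        omega
      have zc : n * Y ≤ Z ∨ Z < n * Y := by omega
      have hm : n * A Y + 12 < x := by
        rcases zc with q | q
        · have := ru Z q (by omega); omega
        · have := rd Z (by omega) q; omega
      by_cases q1 : n * A (Y - 1) + 12 < x
      · exfalso
        refine hP' ⟨by omega, by omega, ?_, by omega⟩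
        rcases (by omega : n * Y ≤ y ∨ y < n * Y) with q | q
        · have := ru y q (by omega); omega
        · have := rd y (by omega) q; omega
      · have hyY : y < n * Y := by
          by_contra hc
          have := ru y (by omega) (by omega)
          exact hP' ⟨by omega, by omega, by omega, by omega⟩
        have hZ : n * Y ≤ Z := by
          by_contra hc
          have := rd Z (by omega) (by omega)
          omega
        have rr := ru (y + 1) (by omega) (by omega)
        refine flat_F (c0 := CL (Y - 1)) (by omega) ⟨by omega, by omega, by omega⟩ ?_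
        intro z k1 k2
        have d := dn z (by omega) (by omega) h
        refine ⟨fun _ => by omega, ?_⟩
        rw [if_neg (by omega)]
        exact d.2.2.1

end Pool.Agent.H31.W
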