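import Pool.Agent.H31.W.Fz
import Pool.Agent.H62.W.TotB
import Pool.Agent.H14.W.NCoarse

set_option autoImplicit false
open Finset

/-! # Natural values

`EPs D p s`, `WPs O p s` : random and open labels of the natural window of the world `p`, the walls of the kinds
`s` pushed out. `Nv Φ O p s` : the natural value. `Tg D p s` : the tie points of the kinds in `s`. `et_iff`, `wt_iff` :
off the small squares at the corners the environment of the totals (ties of `s` fair, everything else natural,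
frozen tiles arbitrary) is the natural one. -/

namespace Pool.Agent.H31.W

open Pool.Agent.H54.W (Win)
open Pool.Agent.H95.W (CoarseR CoarseRC)
open Pool.Agent.H72.W.N
open Pool.Agent.H14.W (SQ SL mem_SL EPn cns mem_cns CorL BX BX_four)
open Pool.Agent.H42.Sp (Sd Ix kt rt)
open Pool.Agent.H33.Q1 (lt tt tv tf lt_inj tt_lt lt_odd lt_tt)
open Pool.Agent.H62.W (ET WT mem_ET mem_WT InT CAs mem_CAs)
open Pool.Agent.H74.R45 (exists_lt)
open Pool.Agent.Q1

variable {D : Win} {n H W : ℤ} {A : ℤ → ℤ} {CL : ℤ → Bool} {p : Bool} {x y z Y cx c : ℤ}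
  {s : Finset Sd} {O : OutB D} {S : Finset (ℤ × ℤ)}

/-- random labels of the natural window with the walls of the kinds `s` pushed out -/
noncomputable def EPs (D : Win) (p : Bool) (s : Finset Sd) : Finset (ℤ × ℤ) :=
  TB D fun x y => EPn D s (x + sh p) y

/-- open labels of the natural window with the walls of the kinds `s` pushed out -/
noncomputable def WPs {D : Win} (O : OutB D) (p : Bool) (s : Finset Sd) : Finset (ℤ × ℤ) :=
  TB D (fun x y => ¬ EPn D s (x + sh p) y ∧ natc D p x y = true) ∪ O.Wo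

/-- **The natural value.** -/
noncomputable def Nv (Φ : Finset (ℤ × ℤ) → ℂ) {D : Win} (O : OutB D) (p : Bool) (s : Finset Sd) : ℂ :=
  Ec (fun _ => (1 / 2 : ℂ)) (EPs D p s) (fun ω => Φ (ω ∪ WPs O p s))

/-- the tie points of the kinds in `s` -/
noncomputable def Tg (D : Win) (p : Bool) (s : Finset Sd) : Finset Ix := (CAs D p).filter fun k => k.1 ∈ s

lemma mem_Tg {k : Ix} : k ∈ Tg D p s ↔ CA D p k ∧ k.1 ∈ s := by
  unfold Tg
  rw [mem_filter, mem_CAs]

lemma epn_inB (h : EPn D s (x + sh p) y) : InB D x y := by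
  have s0 := sh_nonneg p
  have s1 := sh_le p
  rcases h with h | ⟨k, -, h⟩
  · have := InP.box (p := p) (x := x) (y := y) h
    unfold InB; omega
  · exact LyA.inB (p := p) (x := x) (y := y) h (by omega) (by omega) (by omega) (by omega)

lemma mem_EPs : lt (x, y) ∈ EPs D p s ↔ EPn D s (x + sh p) y := by
  unfold EPs
  rw [mem_TB]
  exact ⟨fun h => h.2, fun h => ⟨epn_inB h, h⟩⟩

lemma mem_WPs : lt (x, y) ∈ WPs O p s ↔
    (InB D x y ∧ ¬ EPn D s (x + sh p) y ∧ natc D p x y = true) ∨ lt (x, y) ∈ O.Wo := by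
  unfold WPs
  rw [mem_union, mem_TB]

lemma odd_EPs {e : ℤ × ℤ} (he : e ∈ EPs D p s) : (e.1 + e.2) % 2 = 1 := odd_TB he

lemma disj_Ps : Disjoint (EPs D p s) (WPs O p s) := by
  rw [disjoint_left]
  intro e he he'
  obtain ⟨x, y, rfl⟩ := exists_lt (odd_EPs he)
  rw [mem_EPs] at he
  rcases mem_WPs.1 he' with h | h
  · exact h.2.1 he
  · exact O.far x y h (epn_inB he)

/-- the corners -/
lemma crP_cns (C : CoarseRC D n H W A CL) (h : CrP n H W A cx c) : (cx, c) ∈ cns D n H A := by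
  have hh := C.hh
  have ww := C.ww
  have HH := C.HH
  rw [mem_cns]
  rcases h with ⟨Y, h0, h1, h2, rfl, h3⟩ | ⟨rfl, h3⟩ | ⟨rfl, h3⟩
  · rcases h3 with rfl | rfl
    · exact Or.inr (Or.inr ⟨A (Y - 1), Y, ⟨by omega, by omega, Or.inr ⟨rfl, h0⟩, fun _ _ => h2⟩, rfl⟩)
    · exact Or.inr (Or.inr ⟨A Y, Y, ⟨by omega, by omega, Or.inl ⟨rfl, h1⟩, fun _ _ => h2⟩, rfl⟩)
  · rcases h3 with rfl | rfl
    · exact Or.inr (Or.inr ⟨A 0, 0, ⟨by omega, by omega, Or.inl ⟨rfl, HH⟩, fun h => by omega⟩,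
        by rw [mul_zero]⟩)
    · exact Or.inl (by rw [ww])
  · rcases h3 with rfl | rfl
    · exact Or.inr (Or.inr ⟨A (H - 1), H, ⟨by omega, by omega, Or.inr ⟨rfl, HH⟩,
        fun _ h => by omega⟩, rfl⟩)
    · exact Or.inr (Or.inl (by rw [ww, hh]))

/-- the tile is off the small squares -/
def FarC (D : Win) (n H : ℤ) (A : ℤ → ℤ) (x y : ℤ) : Prop :=
  ∀ c ∈ cns D n H A, ¬ SQ D 4 c.1 c.2 x y

lemma farC_iff : FarC D n H A x y ↔ ∀ c ∈ cns D n H A, lt (x, y) ∉ SL D 4 c.1 c.2 := by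
  unfold FarC
  refine forall₂_congr fun c _ => ?_
  rw [mem_SL]

lemma FarC.crP (C : CoarseRC D n H W A CL) (h : FarC D n H A x y) :
    ∀ cx c, CrP n H W A cx c → ¬ SQ D 4 cx c x y := fun _ _ hc => h _ (crP_cns C hc)

/-- the frozen tiles off the right wall are near the corners -/
theorem frt_R (C : CoarseRC D n H W A CL) (hn : 40 ≤ n) (hf : FarC D n H A x y) (h : FRt D p x y) :
    x + sh p = D.w ∧ 0 ≤ y ∧ y < D.h := by
  by_contra hc
  have hr := h.1
  have hR : x + sh p < D.w ∨ y < 0 ∨ D.h ≤ y := by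
    obtain ⟨⟨Z, z1, z2, z3, z4, z5, z6⟩, -⟩ := hr
    omega
  obtain ⟨k, k1, -, k3⟩ := ring_tie C hn hr hR (hf.crP C)
  rcases k3 with k3 | k3
  · exact h.2.1 ⟨k, k1, k3⟩
  · exact h.2.2 ⟨k, k1, k3⟩

/-- a layer tile which is not on the right wall is in a tie of its kind, off the corners -/
theorem ly_tie (C : CoarseRC D n H W A CL) (hn : 40 ≤ n) (hf : FarC D n H A x y) {k : Sd}
    (hk : k ≠ .R) (h : LyA D p k x y) : ∃ l : Ix, CA D p l ∧ l.1 = k ∧ (kt l = (x, y) ∨ rt l = (x, y)) := by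
  have hR : x + sh p < D.w ∨ y < 0 ∨ D.h ≤ y := by
    cases k
    · obtain ⟨h1, h2, h3, -, -⟩ := h
      have := D.aw y h1 h2
      omega
    · exact absurd rfl hk
    · obtain ⟨h1, h2, h3, h4, -⟩ := h
      omega
    · obtain ⟨h1, h2, h3, h4, -⟩ := h
      omega
  obtain ⟨l, l1, -, l3⟩ := ring_tie C hn h.ring hR (hf.crP C)
  refine ⟨l, l1, ?_, l3⟩
  rcases l3 with l3 | l3
  · have := CA.kt_ly l1
    rw [l3] at this
    exact this.unique h
  · have := CA.rt_ly l1
    rw [l3] at this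
    exact this.unique h

/-- a tile of a tie of `s` is a layer tile of a kind in `s` -/
lemma inT_ly (h : InT (Tg D p s) x y) : ∃ k ∈ s, LyA D p k x y := by
  obtain ⟨l, l1, l2⟩ := h
  obtain ⟨l1, l3⟩ := mem_Tg.1 l1
  refine ⟨l.1, l3, ?_⟩
  rcases l2 with l2 | l2
  · have := CA.kt_ly l1
    rwa [l2] at this
  · have := CA.rt_ly l1
    rwa [l2] at this

/-- **random labels off the corners** -/
theorem et_iff (C : CoarseRC D n H W A CL) (hn : 40 ≤ n) (hs : .R ∉ s) (hf : FarC D n H A x y) :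
    lt (x, y) ∈ ET D p (Tg D p s) ↔ lt (x, y) ∈ EPs D p s := by
  rw [mem_ET, mem_EPs]
  unfold EPn
  refine or_congr inP_iff ⟨inT_ly, ?_⟩
  rintro ⟨k, hk, h⟩
  obtain ⟨l, l1, l2, l3⟩ := ly_tie C hn hf (fun hR => hs (hR ▸ hk)) h
  exact ⟨l, mem_Tg.2 ⟨l1, l2 ▸ hk⟩, l3⟩

/-- **open labels off the corners** -/
theorem wt_iff (C : CoarseRC D n H W A CL) (hn : 40 ≤ n) (hs : .R ∉ s) (hf : FarC D n H A x y)
    (hS : S ⊆ FR D p)
    (hSR : FRt D p x y → x + sh p = D.w → 0 ≤ y → y < D.h → (lt (x, y) ∈ S ↔ natc D p x y = true)) :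
    lt (x, y) ∈ WT O p (Tg D p s) S ↔ lt (x, y) ∈ WPs O p s := by
  have e := et_iff (p := p) C hn hs hf
  rw [mem_ET, mem_EPs] at e
  rw [mem_WT, mem_WPs]
  by_cases hF : FRt D p x y
  · obtain ⟨r1, r2, r3⟩ := frt_R C hn hf hF
    have hS' := hSR hF r1 r2 r3
    have hB := hF.1.inB
    have hE : ¬ EPn D s (x + sh p) y := by
      rw [← e]
      rintro (h | h)
      · exact hF.1.2 h
      · exact h.not_FRt (fun k hk => (mem_Tg.1 hk).1) hF
    rw [hS']
    tauto
  · have hS' : lt (x, y) ∉ S := fun h => hF (mem_FR.1 (hS h))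
    rw [← e]
    tauto

end Pool.Agent.H31.W
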