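import Pool.Agent.H31.W.NatD

set_option autoImplicit false
open Finset

/-! # The natural values differ little

`FunZ Z Φ K` : bounded functional of the zone `Z` which does not see the toggles. `nv_cmp` : the natural value
against every environment which is natural off the small squares at the corners. `natR` : the totals with the ties of
`s` fair and arbitrary frozen tiles. `s1` : left walls pushed in the world `false`, right wall pushed in the world
`true`. -/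

namespace Pool.Agent.H31.W

open Pool.Agent.H54.W (Win)
open Pool.Agent.H95.W (CoarseR CoarseRC)
open Pool.Agent.H72.W.N
open Pool.Agent.H14.W (SQ SL mem_SL EPn cns mem_cns CorL BX BX_four BoxF ZnC NatC NB NB_sub CrE disp_coarse ofRC)
open Pool.Agent.H42.Sp (Sd Ix kt rt)
open Pool.Agent.H33.Q1 (lt tt tv tf lt_inj tt_lt lt_odd lt_tt)
open Pool.Agent.H62.W (ET WT mem_ET mem_WT InT CAs mem_CAs odd_ET disj_ETW)
open Pool.Agent.H74.R45 (exists_lt)
open Pool.Agent.Q1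

/-- **Bounded functional of the zone `Z`** -/
structure FunZ (Z : Finset (ℤ × ℤ)) (Φ : Finset (ℤ × ℤ) → ℂ) (K : ℝ) : Prop where
  odd : ∀ e ∈ Z, (e.1 + e.2) % 2 = 1
  loc : ∀ w, Φ (w ∩ Z) = Φ w
  box : ∀ M ⊆ Z, BoxF Z M Φ
  K0 : 0 ≤ K
  bd : ∀ w, ‖Φ w‖ ≤ K

/-- the zone contains the box near the corners -/
def ZnD (D : Win) (n H : ℤ) (A : ℤ → ℤ) (M : ℤ) (Z : Finset (ℤ × ℤ)) : Prop :=
  ∀ c ∈ cns D n H A, ZnC D 4 Z c.1 c.2 M

/-- the mean depends only on the labels of the zone -/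
lemma FunZ.res {Z : Finset (ℤ × ℤ)} {Φ : Finset (ℤ × ℤ) → ℂ} {K : ℝ} (h : FunZ Z Φ K)
    (E W : Finset (ℤ × ℤ)) : Ec (fun _ => (1 / 2 : ℂ)) E (fun ω => Φ (ω ∪ W)) =
      Ec (fun _ => (1 / 2 : ℂ)) (E ∩ Z) (fun ω => Φ (ω ∪ (W ∩ Z))) := by
  have e1 := Ec_local (fun _ => (1 / 2 : ℂ)) (inter_subset_left : E ∩ Z ⊆ E)
    (fun ω => Φ (ω ∪ (W ∩ Z)))
  rw [← e1]
  refine Ec_congr fun ω hω => ?_
  rw [← h.loc (ω ∪ W)]
  congr 1
  ext l
  simp only [mem_inter, mem_union]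
  constructor
  · rintro ⟨h1 | h1, h2⟩
    · exact Or.inl ⟨h1, hω h1, h2⟩
    · exact Or.inr ⟨h1, h2⟩
  · rintro (⟨h1, -, h2⟩ | ⟨h1, h2⟩)
    · exact ⟨Or.inl h1, h2⟩
    · exact ⟨Or.inr h1, h2⟩

/-- **The natural value and an environment which is natural off the corners.** -/
theorem nv_cmp : ∃ C α : ℝ, 0 < C ∧ 0 < α ∧ ∀ (D : Win) (n H W : ℤ) (A : ℤ → ℤ) (CL : ℤ → Bool),
    CoarseRC D n H W A CL → ∀ M : ℤ, 400 ≤ M → 2 * M ≤ n → CrE D M →
    ∀ (Z : Finset (ℤ × ℤ)), ZnD D n H A M Z → ∀ (Φ : Finset (ℤ × ℤ) → ℂ) (K : ℝ), FunZ Z Φ K →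
    ∀ (O : OutB D) (p : Bool) (s : Finset Sd) (E' W' : Finset (ℤ × ℤ)), Disjoint E' W' →
    (∀ x y, lt (x, y) ∈ Z → FarC D n H A x y → (lt (x, y) ∈ EPs D p s ↔ lt (x, y) ∈ E') ∧
      (lt (x, y) ∈ WPs O p s ↔ lt (x, y) ∈ W')) →
    ‖Nv Φ O p s - Ec (fun _ => (1 / 2 : ℂ)) E' (fun ω => Φ (ω ∪ W'))‖ ≤
      (2 * H + 4) * (C * K * ((1 : ℝ) / M) ^ (1 + α)) := by
  obtain ⟨C, α, hC, hα, key⟩ := disp_coarse
  refine ⟨C, α, hC, hα, ?_⟩
  intro D n H W A CL hc M hM hMn hcr Z hZ Φ K hΦ O p s E' W' hd hag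
  unfold Nv
  rw [hΦ.res (EPs D p s), hΦ.res E' W']
  refine key D n H A CL (ofRC hc) M hM hMn hcr 4 le_rfl p s Z (EPs D p s ∩ Z) (WPs O p s ∩ Z)
    (E' ∩ Z) (W' ∩ Z) hΦ.odd inter_subset_right inter_subset_right inter_subset_right
    inter_subset_right (disj_Ps.mono inter_subset_left inter_subset_left)
    (hd.mono inter_subset_left inter_subset_left) hZ ?_ ?_ Φ
    (fun c _ => hΦ.box _ NB_sub) K hΦ.K0 fun w _ => hΦ.bd w
  · intro c hcn
    constructor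
    · intro x y h1 _
      rw [mem_inter, mem_EPs]
      refine ⟨fun h => h.1, fun h => ⟨h, hZ c hcn x y h1 ?_⟩⟩
      rw [BX_four]
      exact epn_inB h
    · intro x y h1 _ h3 h4
      rw [mem_inter, mem_WPs]
      constructor
      · rintro ⟨h5 | h5, -⟩
        · exact h5.2.2
        · exact absurd (BX_four.1 h3) (O.far x y h5)
      · intro h5
        exact ⟨Or.inl ⟨BX_four.1 h3, h4, h5⟩, hZ c hcn x y h1 h3⟩
  · intro l hl
    by_cases hlZ : l ∈ Z
    · obtain ⟨x, y, rfl⟩ := exists_lt (hΦ.odd l hlZ)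
      obtain ⟨h1, h2⟩ := hag x y hlZ (farC_iff.2 hl)
      simp only [mem_inter, hlZ, and_true]
      exact ⟨h1, h2⟩
    · simp only [mem_inter, hlZ, and_false, and_self]

/-- **Totals against natural values**: the ties of the kinds in `s` are fair, everything else is natural, the frozen
tiles are arbitrary (on the right wall natural). -/
theorem natR : ∃ C α : ℝ, 0 < C ∧ 0 < α ∧ ∀ (D : Win) (n H W : ℤ) (A : ℤ → ℤ) (CL : ℤ → Bool),
    CoarseRC D n H W A CL → ∀ M : ℤ, 400 ≤ M → 2 * M ≤ n → CrE D M →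
    ∀ (Z : Finset (ℤ × ℤ)), ZnD D n H A M Z → ∀ (Φ : Finset (ℤ × ℤ) → ℂ) (K : ℝ), FunZ Z Φ K →
    ∀ (O : OutB D) (p : Bool) (s : Finset Sd), .R ∉ s → ∀ (S : Finset (ℤ × ℤ)), S ⊆ FR D p →
    (∀ x y, lt (x, y) ∈ Z → FRt D p x y → x + sh p = D.w → 0 ≤ y → y < D.h →
      (lt (x, y) ∈ S ↔ natc D p x y = true)) →
    ‖Nv Φ O p s - Ec (fun _ => (1 / 2 : ℂ)) (ET D p (Tg D p s))
      (fun ω => Φ (ω ∪ WT O p (Tg D p s) S))‖ ≤ (2 * H + 4) * (C * K * ((1 : ℝ) / M) ^ (1 + α)) := by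
  obtain ⟨C, α, hC, hα, key⟩ := nv_cmp
  refine ⟨C, α, hC, hα, ?_⟩
  intro D n H W A CL hc M hM hMn hcr Z hZ Φ K hΦ O p s hs S hS hSR
  refine key D n H W A CL hc M hM hMn hcr Z hZ Φ K hΦ O p s _ _
    (disj_ETW (fun k hk => (mem_Tg.1 hk).1) hS) ?_
  intro x y hlZ hf
  exact ⟨(et_iff hc (by omega) hs hf).symm,
    (wt_iff hc (by omega) hs hf hS (fun h1 h2 h3 h4 => hSR x y hlZ h1 h2 h3 h4)).symm⟩

/-! ### The same region at the same place -/

section s1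

variable {D : Win} {n H W : ℤ} {A : ℤ → ℤ} {CL : ℤ → Bool} {x y : ℤ}

/-- off the corners the tile at the left of a row is a layer tile -/
lemma lyL_of (C : CoarseRC D n H W A CL) (hn : 40 ≤ n) (hf : FarC D n H A x y) (h0 : 0 ≤ y)
    (h1 : y < D.h) (hx : x + 1 = D.a y) : LyP D .L x y := by
  have haw := D.aw y h0 h1
  have hring : Ring D false x y := by
    refine ⟨⟨y, by omega, by omega, h0, h1, ?_, ?_⟩, ?_⟩
    · rw [sh_false]; omega
    · rw [sh_false]; omega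
    · rintro ⟨-, -, h, -⟩
      rw [sh_false] at h; omega
  obtain ⟨l, l1, l2, l3⟩ := ring_tie C hn hring (Or.inl (by rw [sh_false]; omega)) (hf.crP C)
  have hl : LyA D false l.1 x y := by
    rcases l3 with l3 | l3
    · have := CA.kt_ly l1
      rwa [l3] at this
    · have := CA.rt_ly l1
      rwa [l3] at this
  revert hl l2
  generalize l.1 = k
  intro l2 hl
  unfold LyA at hl
  rw [sh_false, add_zero] at hl
  cases k
  · exact hl
  · exact absurd rfl l2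
  · obtain ⟨g1, g2, g3, g4, g5⟩ := hl
    have := g5 h0; omega
  · obtain ⟨g1, g2, g3, g4, g5⟩ := hl
    have := g5 h1; omega

lemma epn_s1 (C : CoarseRC D n H W A CL) (hn : 40 ≤ n) (hf : FarC D n H A x y) :
    EPn D {.L} (x + sh false) y ↔ EPn D {.R} (x + sh true) y := by
  rw [sh_false, sh_true, add_zero]
  unfold EPn
  constructor
  · rintro (⟨h1, h2, h3, h4⟩ | ⟨k, hk, h⟩)
    · by_cases q : x + 1 = D.w
      · exact Or.inr ⟨.R, mem_singleton_self _, h1, h2, q⟩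
      · exact Or.inl ⟨h1, h2, by omega, by omega⟩
    · rw [mem_singleton] at hk
      subst hk
      obtain ⟨h1, h2, h3, -, -⟩ := h
      have := D.aw y h1 h2
      exact Or.inl ⟨h1, h2, by omega, by omega⟩
  · rintro (⟨h1, h2, h3, h4⟩ | ⟨k, hk, h⟩)
    · by_cases q : D.a y ≤ x
      · exact Or.inl ⟨h1, h2, q, by omega⟩
      · exact Or.inr ⟨.L, mem_singleton_self _, lyL_of C hn hf h1 h2 (by omega)⟩
    · rw [mem_singleton] at hk
      subst hk
      obtain ⟨h1, h2, h3⟩ := h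
      have := D.aw y h1 h2
      exact Or.inl ⟨h1, h2, by omega, by omega⟩

end s1

end Pool.Agent.H31.W
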