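import Pool.Agent.H31.W.NatR
import Pool.Agent.H62.W.Phi

set_option autoImplicit false
open Finset

/-! # The functional of the box is a functional of the zone `ZS`

`funZ_Phi` : `FunZ` for `Phi`. `znD_ZS` : the zone contains the box near the corners, if the end of the string is inside
of the window at distance `M + 2` from the walls. -/

namespace Pool.Agent.H31.W

open Pool.Agent.H54.W (Win CD NE)
open Pool.Agent.H95.W (CoarseR CoarseRC)
open Pool.Agent.H72.W.N
open Pool.Agent.H14.W (SQ SL mem_SL EPn cns mem_cns CorL BX BX_four BoxF ZnC NatC NB NB_sub CrE Dc)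
open Pool.Agent.H33.Q1 (lt tt tv tf lt_inj tt_lt lt_odd lt_tt)
open Pool.Agent.H62.W (Phi ZS mem_ZS odd_ZS zone_Phi phiG_le)
open Pool.Agent.H74.R45 (exists_lt)

variable {D : Win} {n H W : ℤ} {A : ℤ → ℤ} {CL : ℤ → Bool} {x0 r X1 X2 Y1 Y2 M : ℤ}

/-- the functional of the box -/
theorem funZ_Phi (C : CD) (n : ℤ) (c0 : Bool) {Ψ : (NE → NE → Prop) → ℂ} {K : ℝ} (hK : 0 ≤ K)
    (hΨ : ∀ a, ‖Ψ a‖ ≤ K) :
    FunZ (ZS X1 X2 Y1 Y2 x0 r) (Phi C n c0 x0 r X1 X2 Y1 Y2 Ψ) K where
  odd := fun _ h => odd_ZS h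
  loc := fun _ => (zone_Phi C n c0).inter
  box := fun _ hM => (zone_Phi C n c0).boxF hM
  K0 := hK
  bd := phiG_le hΨ

/-- the end of the string is deep inside of the window -/
def DeepZ (D : Win) (M x0 r : ℤ) : Prop :=
  ∀ x y, x0 - (M + 2) ≤ x → x ≤ x0 + (M + 2) → r - (M + 2) ≤ y → y ≤ r + (M + 2) → PT D x y

/-- the box contains the window with a margin of four tiles -/
def BoxD (D : Win) (X1 X2 Y1 Y2 : ℤ) : Prop :=
  X1 + 4 ≤ D.lo ∧ D.w + 4 ≤ X2 ∧ Y1 ≤ -4 ∧ D.h + 4 ≤ Y2

/-- the string is far from the corners -/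
lemma DeepZ.cns (C : CoarseRC D n H W A CL) (hM : 0 ≤ M) (h : DeepZ D M x0 r) {c : ℤ × ℤ}
    (hc : c ∈ cns D n H A) : M < |r - c.2| ∨ c.1 + M < x0 := by
  have hn := C.pos
  have r1 := h x0 (r - (M + 2)) (by omega) (by omega) (by omega) (by omega)
  have r2 := h x0 (r + (M + 2)) (by omega) (by omega) (by omega) (by omega)
  unfold PT at r1 r2
  by_contra hcon
  push Not at hcon
  obtain ⟨h1, h2⟩ := hcon
  rw [abs_le] at h1
  rw [mem_cns] at hc
  rcases hc with rfl | rfl | ⟨X, K, ⟨k0, k1, k2, k3⟩, rfl⟩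
  · simp only at h1; omega
  · simp only at h1; omega
  · simp only at h1 h2
    have q1 := h (x0 - (M + 2)) (n * K - 1) (by omega) (by omega) (by omega) (by omega)
    have q2 := h (x0 - (M + 2)) (n * K) (by omega) (by omega) (by omega) (by omega)
    unfold PT at q1 q2
    have hH : K < H := by
      by_contra hc
      have : n * H ≤ n * K := mul_le_mul_of_nonneg_left (by omega) hn.le
      have hh := C.hh
      omega
    have hK : 0 < K := by
      by_contra hc
      have : n * K ≤ n * 0 := mul_le_mul_of_nonneg_left (by omega) hn.le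
      rw [mul_zero] at this
      omega
    have h8 := C.hn
    have u := row_up C hK.le hH (z := n * K) le_rfl (by omega)
    have d := row_dn C hK hH.le (z := n * K - 1) (by omega) (by omega)
    rcases k2 with ⟨rfl, -⟩ | ⟨rfl, -⟩ <;> omega

/-- **the zone contains the box near the corners** -/
theorem znD_ZS (C : CoarseRC D n H W A CL) (hM : 0 ≤ M) (hB : BoxD D X1 X2 Y1 Y2)
    (h : DeepZ D M x0 r) : ZnD D n H A M (ZS X1 X2 Y1 Y2 x0 r) := by
  intro c hc x y h1 h2
  rw [mem_ZS]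
  have k := h.cns C hM hc
  obtain ⟨b1, b2, b3, b4⟩ := hB
  unfold BX at h2
  unfold Dc at h1
  refine ⟨by omega, ?_⟩
  rintro ⟨rfl, k2⟩
  rcases k with k | k
  · have : |y - c.2| ≤ M := by rw [abs_le]; omega
    omega
  · omega

end Pool.Agent.H31.W
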